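import Pool.Agent.TH961.SD.Three
import Pool.Agent.TH961.AP.Gen2

set_option autoImplicit false

/-!
Counting the near-solutions of `α log n₁ + β log n₂ + γ log n₃ = 0`, `α + β + γ = 0`.
-/

namespace Pool.Agent.TH961.SD

open Finset

theorem prop_eq (a b c a' b' c' g : ℕ) (hb : 0 < b) (hg0 : 0 < g)
    (h1 : a * b' = a' * b) (h2 : c * b' = c' * b) (hg : Nat.gcd a (Nat.gcd b c) = g)
    (hg' : Nat.gcd a' (Nat.gcd b' c') = g) : a = a' ∧ b = b' ∧ c = c' := by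
  have e1 : g * b' = g * b := by
    calc g * b' = Nat.gcd a (Nat.gcd b c) * b' := by rw [hg]
      _ = Nat.gcd (a * b') (Nat.gcd (b * b') (c * b')) := by
          rw [Nat.gcd_mul_right, Nat.gcd_mul_right]
      _ = Nat.gcd (a' * b) (Nat.gcd (b' * b) (c' * b)) := by rw [h1, h2, mul_comm b b']
      _ = Nat.gcd a' (Nat.gcd b' c') * b := by rw [Nat.gcd_mul_right, Nat.gcd_mul_right]
      _ = g * b := by rw [hg']
  have e2 : b' = b := Nat.eq_of_mul_eq_mul_left hg0 e1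
  rw [e2] at h1 h2
  exact ⟨Nat.eq_of_mul_eq_mul_right hb h1, e2.symm, Nat.eq_of_mul_eq_mul_right hb h2⟩

def gg (p : ℕ × ℕ × ℕ) : ℕ := Nat.gcd p.1 (Nat.gcd p.2.1 p.2.2)

theorem gg_dvd (p : ℕ × ℕ × ℕ) : gg p ∣ p.1 ∧ gg p ∣ p.2.1 ∧ gg p ∣ p.2.2 := by
  unfold gg
  refine ⟨Nat.gcd_dvd_left _ _, ?_, ?_⟩
  · exact (Nat.gcd_dvd_right _ _).trans (Nat.gcd_dvd_left _ _)
  · exact (Nat.gcd_dvd_right _ _).trans (Nat.gcd_dvd_right _ _)

theorem XX_inj (N g : ℕ) (hg : 1 ≤ g) (hN : 1 ≤ N) (ω ρ : ℝ) (h0 : 0 < ω) (h1 : ω < 1)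
    (hρ0 : 0 ≤ ρ) (hρ : 32 * (N:ℝ) ^ 6 * ρ ≤ 1) (p q : ℕ × ℕ × ℕ)
    (hp : IsNS N ω ρ p) (hq : IsNS N ω ρ q) (gp : gg p = g) (gq : gg q = g)
    (h : XX p = XX q) : p = q := by
  have hNr : (1:ℝ) ≤ N := by exact_mod_cast hN
  have hw0 : 0 < ω * (1 - ω) := mul_pos h0 (by linarith)
  have hw4 : ω * (1 - ω) ≤ 1 / 4 := by nlinarith [sq_nonneg (ω - 1 / 2)]
  have hN6 : (1:ℝ) ≤ (N:ℝ) ^ 6 := one_le_pow₀ hNr
  have hρ1 : ρ ≤ 1 := by nlinarith
  have hε : ρ * (ω * (1 - ω)) ≤ 1 := by nlinarith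
  have y1 := abs_le.1 (YY_near hp h0 hε)
  have y2 := abs_le.1 (YY_near hq h0 hε)
  rw [h] at y1
  have b1 : (0:ℝ) < p.2.1 := by exact_mod_cast (lt_of_lt_of_le hp.1 hp.2.1)
  have b2 : (0:ℝ) < q.2.1 := by exact_mod_cast (lt_of_lt_of_le hq.1 hq.2.1)
  have c1 : (p.2.1:ℝ) ≤ N := by exact_mod_cast hp.2.2.1
  have c2 : (q.2.1:ℝ) ≤ N := by exact_mod_cast hq.2.2.1
  have c3 : (p.2.1:ℝ) * q.2.1 ≤ (N:ℝ) ^ 2 := by
    calc (p.2.1:ℝ) * q.2.1 ≤ N * N := by gcongr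
      _ = _ := by ring
  have hlt : |(p.2.2:ℝ) / p.2.1 - (q.2.2:ℝ) / q.2.1| ≤ ρ := by
    rw [abs_le]; constructor <;> nlinarith
  have hlt2 : |(p.2.2:ℝ) * q.2.1 - q.2.2 * p.2.1| < 1 := by
    have e1 : (p.2.2:ℝ) * q.2.1 - q.2.2 * p.2.1 =
        ((p.2.2:ℝ) / p.2.1 - (q.2.2:ℝ) / q.2.1) * (p.2.1 * q.2.1) := by
      field_simp
    rw [e1, abs_mul, abs_of_pos (mul_pos b1 b2)]
    have hN26 : (N:ℝ) ^ 2 ≤ (N:ℝ) ^ 6 := pow_le_pow_right₀ hNr (by norm_num)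
    calc |(p.2.2:ℝ) / p.2.1 - (q.2.2:ℝ) / q.2.1| * (p.2.1 * q.2.1) ≤ ρ * (N:ℝ) ^ 2 := by
          gcongr
      _ ≤ ρ * (N:ℝ) ^ 6 := by gcongr
      _ < 1 := by nlinarith
  have hint : (p.2.2:ℤ) * q.2.1 - q.2.2 * p.2.1 = 0 := by
    have : |(p.2.2:ℤ) * q.2.1 - q.2.2 * p.2.1| < 1 := by exact_mod_cast hlt2
    exact Int.abs_lt_one_iff.1 this
  have h2 : p.2.2 * q.2.1 = q.2.2 * p.2.1 := by
    have : (p.2.2:ℤ) * q.2.1 = q.2.2 * p.2.1 := by linarith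
    exact_mod_cast this
  have h3 : p.1 * q.2.1 = q.1 * p.2.1 := by
    unfold XX at h
    rw [div_eq_div_iff b1.ne' b2.ne'] at h
    exact_mod_cast h
  obtain ⟨e1, e2, e3⟩ := prop_eq p.1 p.2.1 p.2.2 q.1 q.2.1 q.2.2 g
    (lt_of_lt_of_le hp.1 hp.2.1) hg h3 h2 gp gq
  exact Prod.ext e1 (Prod.ext e2 e3)

theorem three' (N g : ℕ) (hg : 1 ≤ g) (hgN : g ≤ N) (ω ρ : ℝ) (h0 : 0 < ω) (h1 : ω < 1)
    (hρ0 : 0 ≤ ρ) (hρ : 32 * (N:ℝ) ^ 6 * ρ ≤ 1) (p q r : ℕ × ℕ × ℕ)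
    (hp : IsNS N ω ρ p ∧ gg p = g) (hq : IsNS N ω ρ q ∧ gg q = g) (hr : IsNS N ω ρ r ∧ gg r = g)
    (hpq : p ≠ q) (hpr : p ≠ r) (hqr : q ≠ r)
    (d1 : |Real.log (XX p) - Real.log (XX q)| ≤ (g:ℝ) / N)
    (d2 : |Real.log (XX p) - Real.log (XX r)| ≤ (g:ℝ) / N)
    (d3 : |Real.log (XX q) - Real.log (XX r)| ≤ (g:ℝ) / N) : False := by
  have hN : 1 ≤ N := hg.trans hgN
  have inj := XX_inj N g hg hN ω ρ h0 h1 hρ0 hρ
  have tri := three N g hg hgN ω ρ h0 h1 hρ0 hρ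
  have gp := gg_dvd p
  have gq := gg_dvd q
  have gr := gg_dvd r
  rw [hp.2] at gp
  rw [hq.2] at gq
  rw [hr.2] at gr
  have n1 : XX p ≠ XX q := fun h => hpq (inj p q hp.1 hq.1 hp.2 hq.2 h)
  have n2 : XX p ≠ XX r := fun h => hpr (inj p r hp.1 hr.1 hp.2 hr.2 h)
  have n3 : XX q ≠ XX r := fun h => hqr (inj q r hq.1 hr.1 hq.2 hr.2 h)
  have a1 := abs_le.1 d1
  have a2 := abs_le.1 d2
  have a3 := abs_le.1 d3
  rcases lt_or_gt_of_ne n1 with l1 | l1 <;> rcases lt_or_gt_of_ne n2 with l2 | l2 <;>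
    rcases lt_or_gt_of_ne n3 with l3 | l3
  · exact tri p q r hp.1 hq.1 hr.1 gp gq gr l1 l3 (by linarith)
  · exact tri p r q hp.1 hr.1 hq.1 gp gr gq l2 l3 (by linarith)
  · linarith
  · exact tri r p q hr.1 hp.1 hq.1 gr gp gq l2 l1 (by linarith)
  · exact tri q p r hq.1 hp.1 hr.1 gq gp gr l1 l2 (by linarith)
  · linarith
  · exact tri q r p hq.1 hr.1 hp.1 gq gr gp l3 l2 (by linarith)
  · exact tri r q p hr.1 hq.1 hp.1 gr gq gp l3 l1 (by linarith)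

theorem count_g (N g : ℕ) (hg : 1 ≤ g) (hgN : g ≤ N) (ω ρ : ℝ) (h0 : 0 < ω) (h1 : ω < 1)
    (hρ0 : 0 ≤ ρ) (hρ : 32 * (N:ℝ) ^ 6 * ρ ≤ 1) (F : Finset (ℕ × ℕ × ℕ))
    (hF : ∀ p ∈ F, IsNS N ω ρ p ∧ gg p = g) :
    (F.card : ℝ) ≤ 2 * ((N:ℝ) / g * Real.log N + 1) := by
  classical
  have hN : 1 ≤ N := hg.trans hgN
  have hNr : (1:ℝ) ≤ N := by exact_mod_cast hN
  have hN0 : (0:ℝ) < N := by linarith
  have hg0 : (0:ℝ) < g := by exact_mod_cast hg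
  have hlN : 0 ≤ Real.log N := Real.log_nonneg hNr
  let φ : ℕ × ℕ × ℕ → ℕ := fun p => ⌊-Real.log (XX p) * ((N:ℝ) / g)⌋₊
  have hpos : ∀ p ∈ F, 0 ≤ -Real.log (XX p) := by
    intro p hp
    have := Real.log_nonpos (XX_pos (hF p hp).1).le (XX_le (hF p hp).1)
    linarith
  have hle : ∀ p ∈ F, -Real.log (XX p) ≤ Real.log N := by
    intro p hp
    obtain ⟨⟨p1, p2, p3, _⟩, _⟩ := hF p hp
    have a1 : (0:ℝ) < p.2.1 := by exact_mod_cast (lt_of_lt_of_le p1 p2)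
    have a0 : (1:ℝ) ≤ p.1 := by exact_mod_cast p1
    unfold XX
    rw [Real.log_div (by linarith) a1.ne']
    have b1 := Real.log_nonneg a0
    have b2 := Real.log_le_log a1 (show (p.2.1:ℝ) ≤ N by exact_mod_cast p3)
    linarith
  have hfib : ∀ b ∈ F.image φ, (F.filter (fun x => φ x = b)).card ≤ 2 := by
    intro b _
    by_contra hlt
    rw [not_le, Finset.two_lt_card] at hlt
    obtain ⟨p, hp, q, hq, r, hr, hpq, hpr, hqr⟩ := hlt
    rw [mem_filter] at hp hq hr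
    have key : ∀ x ∈ F, ∀ y ∈ F, φ x = b → φ y = b →
        |Real.log (XX x) - Real.log (XX y)| ≤ (g:ℝ) / N := by
      intro x hx y hy hxb hyb
      have c1 := Nat.floor_le (mul_nonneg (hpos x hx) (by positivity : 0 ≤ (N:ℝ) / g))
      have c2 := Nat.lt_floor_add_one (-Real.log (XX x) * ((N:ℝ) / g))
      have c3 := Nat.floor_le (mul_nonneg (hpos y hy) (by positivity : 0 ≤ (N:ℝ) / g))
      have c4 := Nat.lt_floor_add_one (-Real.log (XX y) * ((N:ℝ) / g))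
      simp only [φ] at hxb hyb
      rw [hxb] at c1 c2
      rw [hyb] at c3 c4
      have c5 : |(Real.log (XX x) - Real.log (XX y)) * ((N:ℝ) / g)| ≤ 1 := by
        rw [abs_le]; constructor <;> nlinarith
      rw [abs_mul, abs_of_pos (by positivity : 0 < (N:ℝ) / g)] at c5
      rw [le_div_iff₀ hN0]
      have c6 : |Real.log (XX x) - Real.log (XX y)| * N =
          (|Real.log (XX x) - Real.log (XX y)| * ((N:ℝ) / g)) * g := by field_simp
      rw [c6]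
      nlinarith
    exact three' N g hg hgN ω ρ h0 h1 hρ0 hρ p q r (hF p hp.1) (hF q hq.1) (hF r hr.1) hpq hpr hqr
      (key p hp.1 q hq.1 hp.2 hq.2) (key p hp.1 r hr.1 hp.2 hr.2) (key q hq.1 r hr.1 hq.2 hr.2)
  have h2 := card_le_mul_card_image F 2 hfib
  have h3 : F.image φ ⊆ range (⌊(N:ℝ) / g * Real.log N⌋₊ + 1) := by
    intro b hb
    obtain ⟨p, hp, rfl⟩ := mem_image.1 hb
    rw [mem_range, Nat.lt_succ_iff]
    apply Nat.floor_le_floor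
    have := hle p hp
    calc -Real.log (XX p) * ((N:ℝ) / g) ≤ Real.log N * ((N:ℝ) / g) := by gcongr
      _ = _ := by ring
  have h4 := card_le_card h3
  rw [card_range] at h4
  have h5 : F.card ≤ 2 * (⌊(N:ℝ) / g * Real.log N⌋₊ + 1) := h2.trans (by omega)
  have h6 : (F.card:ℝ) ≤ 2 * ((⌊(N:ℝ) / g * Real.log N⌋₊ : ℕ) + 1) := by exact_mod_cast h5
  have h7 := Nat.floor_le (show 0 ≤ (N:ℝ) / g * Real.log N by positivity)
  linarith

theorem count_le (N : ℕ) (hN : 1 ≤ N) (ω ρ : ℝ) (h0 : 0 < ω) (h1 : ω < 1)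
    (hρ0 : 0 ≤ ρ) (hρ : 32 * (N:ℝ) ^ 6 * ρ ≤ 1) (F : Finset (ℕ × ℕ × ℕ))
    (hF : ∀ p ∈ F, IsNS N ω ρ p) :
    (F.card : ℝ) ≤ 2 * N * (1 + Real.log N) ^ 2 := by
  classical
  have hNr : (1:ℝ) ≤ N := by exact_mod_cast hN
  have hlN : 0 ≤ Real.log N := Real.log_nonneg hNr
  have hmaps : ∀ p ∈ F, gg p ∈ Icc 1 N := by
    intro p hp
    obtain ⟨p1, p2, p3, _⟩ := hF p hp
    rw [mem_Icc]
    have hd := (gg_dvd p).1
    have hpos : 0 < p.1 := p1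
    exact ⟨Nat.pos_of_dvd_of_pos hd hpos, (Nat.le_of_dvd hpos hd).trans (p2.trans p3)⟩
  have h2 := card_eq_sum_card_fiberwise (f := gg) (s := F) (t := Icc 1 N) hmaps
  have h3 : (F.card:ℝ) = ∑ g ∈ Icc 1 N, ((F.filter (fun p => gg p = g)).card : ℝ) := by
    rw [h2]; push_cast; rfl
  rw [h3]
  have h4 : ∀ g ∈ Icc 1 N, ((F.filter (fun p => gg p = g)).card : ℝ) ≤
      2 * (N * Real.log N * (1 / (g:ℝ)) + 1) := by
    intro g hg
    rw [mem_Icc] at hg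
    have := count_g N g hg.1 hg.2 ω ρ h0 h1 hρ0 hρ (F.filter (fun p => gg p = g))
      (fun p hp => ⟨hF p (mem_filter.1 hp).1, (mem_filter.1 hp).2⟩)
    calc _ ≤ _ := this
      _ = _ := by ring
  refine (sum_le_sum h4).trans ?_
  rw [← mul_sum, sum_add_distrib, ← mul_sum, sum_const, nsmul_eq_mul, mul_one]
  have h5 := Pool.Agent.TH961.AP.sum_inv_le_log (Icc 1 N) (fun d hd => (mem_Icc.1 hd).1)
  simp only [Nat.card_Icc, Nat.add_sub_cancel] at h5 ⊢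
  have h6 : (N:ℝ) * Real.log N * ∑ g ∈ Icc 1 N, 1 / (g:ℝ) ≤
      N * Real.log N * (1 + Real.log N) := by gcongr
  nlinarith [mul_nonneg (by linarith : (0:ℝ) ≤ N) hlN]

/-- number of near-solutions -/
noncomputable def CN (N : ℕ) (α β γ : ℝ) : ℝ :=
  ∑ n₁ ∈ Icc 1 N, ∑ n₂ ∈ Icc 1 N, ∑ n₃ ∈ Icc 1 N,
    if |α * Real.log n₁ + β * Real.log n₂ + γ * Real.log n₃| ≤ 2 * (N:ℝ) ^ 2 then (1:ℝ) else 0

theorem CN_neg (N : ℕ) (α β γ : ℝ) : CN N (-α) (-β) (-γ) = CN N α β γ := by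
  unfold CN
  apply sum_congr rfl; intro n₁ _
  apply sum_congr rfl; intro n₂ _
  apply sum_congr rfl; intro n₃ _
  rw [← abs_neg]
  rw [show -(-α * Real.log n₁ + -β * Real.log n₂ + -γ * Real.log n₃) =
    α * Real.log n₁ + β * Real.log n₂ + γ * Real.log n₃ by ring]

theorem CN_23 (N : ℕ) (α β γ : ℝ) : CN N α γ β = CN N α β γ := by
  unfold CN
  apply sum_congr rfl; intro n₁ _
  rw [sum_comm]
  apply sum_congr rfl; intro n₂ _
  apply sum_congr rfl; intro n₃ _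
  rw [show α * Real.log n₁ + γ * Real.log n₃ + β * Real.log n₂ =
    α * Real.log n₁ + β * Real.log n₂ + γ * Real.log n₃ by ring]

theorem CN_12 (N : ℕ) (α β γ : ℝ) : CN N β α γ = CN N α β γ := by
  unfold CN
  rw [sum_comm]
  apply sum_congr rfl; intro n₁ _
  apply sum_congr rfl; intro n₂ _
  apply sum_congr rfl; intro n₃ _
  rw [show β * Real.log n₂ + α * Real.log n₁ + γ * Real.log n₃ =
    α * Real.log n₁ + β * Real.log n₂ + γ * Real.log n₃ by ring]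

theorem CN_pos (N : ℕ) (hN : 1 ≤ N) (H α β : ℝ) (hH : 128 * (N:ℝ) ^ 8 ≤ H) (hα : H ≤ α)
    (hβ : H ≤ β) : CN N α β (-(α + β)) ≤ 4 * N * (1 + Real.log N) ^ 2 := by
  classical
  have hNr : (1:ℝ) ≤ N := by exact_mod_cast hN
  have hN8 : (1:ℝ) ≤ (N:ℝ) ^ 8 := one_le_pow₀ hNr
  have hH0 : 0 < H := by linarith
  have hα0 : 0 < α := by linarith
  have hβ0 : 0 < β := by linarith
  set ω := α / (α + β) with hω
  have h0 : 0 < ω := by positivity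
  have h1' : 1 - ω = β / (α + β) := by rw [hω]; field_simp; ring
  have h1 : ω < 1 := by
    have : 0 < 1 - ω := by rw [h1']; positivity
    linarith
  set ρ := 4 * (N:ℝ) ^ 2 / H with hρ
  have hρ0 : 0 ≤ ρ := by positivity
  have hρ1 : 32 * (N:ℝ) ^ 6 * ρ ≤ 1 := by
    rw [hρ]
    have : 32 * (N:ℝ) ^ 6 * (4 * (N:ℝ) ^ 2 / H) = 128 * (N:ℝ) ^ 8 / H := by ring
    rw [this, div_le_one hH0]
    exact hH
  have hkey : 2 * (N:ℝ) ^ 2 / (α + β) ≤ ρ * (ω * (1 - ω)) := by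
    rw [h1', hω, hρ]
    have e1 : 4 * (N:ℝ) ^ 2 / H * (α / (α + β) * (β / (α + β))) =
        2 * (N:ℝ) ^ 2 / (α + β) * (2 * (α * β) / (H * (α + β))) := by
      field_simp
      ring
    rw [e1]
    have e2 : 1 ≤ 2 * (α * β) / (H * (α + β)) := by
      rw [one_le_div (by positivity)]
      nlinarith
    have e3 : 0 ≤ 2 * (N:ℝ) ^ 2 / (α + β) := by positivity
    nlinarith
  -- the near-solutions
  set P : ℕ × ℕ × ℕ → Prop := fun p =>
    |α * Real.log p.1 + β * Real.log p.2.1 + (-(α + β)) * Real.log p.2.2| ≤ 2 * (N:ℝ) ^ 2 with hP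
  have hP2 : ∀ p, P p → |Real.log p.2.2 - ω * Real.log p.1 - (1 - ω) * Real.log p.2.1| ≤
      ρ * (ω * (1 - ω)) := by
    intro p hp
    refine le_trans ?_ hkey
    rw [le_div_iff₀ (by positivity), ← abs_of_pos (show 0 < α + β by positivity), ← abs_mul]
    refine le_trans (le_of_eq ?_) hp
    rw [← abs_neg]
    congr 1
    rw [h1', hω]
    field_simp
    ring
  set A : Finset (ℕ × ℕ × ℕ) := (Icc 1 N) ×ˢ ((Icc 1 N) ×ˢ (Icc 1 N)) with hA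
  have hCN : CN N α β (-(α + β)) = ((A.filter P).card : ℝ) := by
    unfold CN
    rw [card_filter, Nat.cast_sum, hA, sum_product]
    apply sum_congr rfl; intro n₁ _
    rw [sum_product]
    apply sum_congr rfl; intro n₂ _
    apply sum_congr rfl; intro n₃ _
    simp only [P]
    split_ifs <;> simp
  rw [hCN]
  have hsplit : A.filter P ⊆ ((A.filter P).filter (fun p => p.1 ≤ p.2.1)) ∪
      ((A.filter P).filter (fun p => p.2.1 ≤ p.1)) := by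
    intro p hp
    rcases le_total p.1 p.2.1 with h | h
    · exact mem_union_left _ (mem_filter.2 ⟨hp, h⟩)
    · exact mem_union_right _ (mem_filter.2 ⟨hp, h⟩)
  have c1 : (((A.filter P).filter (fun p => p.1 ≤ p.2.1)).card : ℝ) ≤
      2 * N * (1 + Real.log N) ^ 2 := by
    apply count_le N hN ω ρ h0 h1 hρ0 hρ1
    intro p hp
    rw [mem_filter, mem_filter, hA, mem_product, mem_product, mem_Icc, mem_Icc, mem_Icc] at hp
    obtain ⟨⟨⟨⟨a1, a2⟩, ⟨a3, a4⟩, ⟨a5, a6⟩⟩, hp1⟩, hp2⟩ := hp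
    exact ⟨a1, hp2, a4, a5, hP2 p hp1⟩
  have c2 : (((A.filter P).filter (fun p => p.2.1 ≤ p.1)).card : ℝ) ≤
      2 * N * (1 + Real.log N) ^ 2 := by
    have hinj : Set.InjOn (fun p : ℕ × ℕ × ℕ => ((p.2.1, p.1, p.2.2) : ℕ × ℕ × ℕ))
        ((A.filter P).filter (fun p => p.2.1 ≤ p.1) : Finset (ℕ × ℕ × ℕ)) := by
      rintro ⟨x, y, z⟩ _ ⟨x', y', z'⟩ _ h
      simp only [Prod.mk.injEq] at h ⊢
      tauto
    rw [← card_image_of_injOn hinj]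
    apply count_le N hN (1 - ω) ρ (by linarith) (by linarith) hρ0 hρ1
    intro q hq
    obtain ⟨p, hp, rfl⟩ := mem_image.1 hq
    rw [mem_filter, mem_filter, hA, mem_product, mem_product, mem_Icc, mem_Icc, mem_Icc] at hp
    obtain ⟨⟨⟨⟨a1, a2⟩, ⟨a3, a4⟩, ⟨a5, a6⟩⟩, hp1⟩, hp2⟩ := hp
    refine ⟨a3, hp2, a2, a5, ?_⟩
    have := hP2 p hp1
    simp only
    rw [show (1 - ω) * (1 - (1 - ω)) = ω * (1 - ω) by ring,
      show Real.log p.2.2 - (1 - ω) * Real.log p.2.1 - (1 - (1 - ω)) * Real.log p.1 =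
        Real.log p.2.2 - ω * Real.log p.1 - (1 - ω) * Real.log p.2.1 by ring]
    exact this
  have c3 : ((A.filter P).card : ℝ) ≤
      (((A.filter P).filter (fun p => p.1 ≤ p.2.1)).card : ℝ) +
      (((A.filter P).filter (fun p => p.2.1 ≤ p.1)).card : ℝ) := by
    exact_mod_cast (card_le_card hsplit).trans (card_union_le _ _)
  linarith

theorem CN_le (N : ℕ) (hN : 1 ≤ N) (H α β γ : ℝ) (hH : 128 * (N:ℝ) ^ 8 ≤ H) (hα : H ≤ |α|)
    (hβ : H ≤ |β|) (hγ : H ≤ |γ|) (hs : α + β + γ = 0) :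
    CN N α β γ ≤ 4 * N * (1 + Real.log N) ^ 2 := by
  have hNr : (1:ℝ) ≤ N := by exact_mod_cast hN
  have hN8 : (1:ℝ) ≤ (N:ℝ) ^ 8 := one_le_pow₀ hNr
  have hH0 : 0 < H := by linarith
  have key := CN_pos N hN H
  rcases le_abs.1 hα with a | a <;> rcases le_abs.1 hβ with b | b
  · have := key α β hH a b
    rwa [show -(α + β) = γ by linarith] at this
  · rcases le_abs.1 hγ with c | c
    · -- α, γ > 0
      have := key α γ hH a c
      rw [show -(α + γ) = β by linarith] at this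
      rwa [CN_23] at this
    · -- β, γ < 0
      have := key (-β) (-γ) hH b c
      rw [show -(-β + -γ) = -α by linarith] at this
      rw [← CN_neg, ← CN_12, ← CN_23]
      exact this
  · rcases le_abs.1 hγ with c | c
    · have := key β γ hH b c
      rw [show -(β + γ) = α by linarith] at this
      rw [← CN_12, ← CN_23]
      exact this
    · have := key (-α) (-γ) hH a c
      rw [show -(-α + -γ) = -β by linarith] at this
      rw [← CN_neg, ← CN_23]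
      exact this
  · have := key (-α) (-β) hH a b
    rw [show -(-α + -β) = -γ by linarith] at this
    rwa [CN_neg] at this

end Pool.Agent.TH961.SD
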