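import Mathlib

set_option autoImplicit false

/-!
Second divided differences of `x ^ ω`.
-/

namespace Pool.Agent.TH961.SD

open Set

/-- the (reversed) second difference -/
noncomputable def EE (f : ℝ → ℝ) (x y z : ℝ) : ℝ := (z - y) * (f y - f x) - (y - x) * (f z - f y)

theorem EE_concave {f : ℝ → ℝ} {D : Set ℝ} (hf : ConcaveOn ℝ D f) {x y z : ℝ} (hx : x ∈ D)
    (hz : z ∈ D) (hxy : x < y) (hyz : y < z) : 0 ≤ EE f x y z := by
  have h := hf.slope_anti_adjacent hx hz hxy hyz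
  rw [div_le_div_iff₀ (by linarith) (by linarith)] at h
  unfold EE
  nlinarith

theorem EE_convex {f : ℝ → ℝ} {D : Set ℝ} (hf : ConvexOn ℝ D f) {x y z : ℝ} (hx : x ∈ D)
    (hz : z ∈ D) (hxy : x < y) (hyz : y < z) : EE f x y z ≤ 0 := by
  have h := hf.slope_mono_adjacent hx hz hxy hyz
  rw [div_le_div_iff₀ (by linarith) (by linarith)] at h
  unfold EE
  nlinarith

theorem EE_add (f : ℝ → ℝ) (c x y z : ℝ) :
    EE (fun t => f t + c / 2 * t ^ 2) x y z = EE f x y z -
      c / 2 * ((y - x) * (z - y) * (z - x)) := by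
  unfold EE
  ring

theorem deriv1 (ω c t : ℝ) (ht : 0 < t) : HasDerivAt (fun t : ℝ => t ^ ω + c / 2 * t ^ 2)
    (ω * t ^ (ω - 1) + c * t) t := by
  have h1 := Real.hasDerivAt_rpow_const (x := t) (p := ω) (Or.inl ht.ne')
  have h2 := (hasDerivAt_pow 2 t).const_mul (c / 2)
  refine (h1.add h2).congr_deriv ?_
  norm_num
  ring

theorem deriv2 (ω c t : ℝ) (ht : 0 < t) : HasDerivAt (fun t : ℝ => ω * t ^ (ω - 1) + c * t)
    (c - ω * (1 - ω) * t ^ (ω - 2)) t := by
  have h1 := (Real.hasDerivAt_rpow_const (x := t) (p := ω - 1) (Or.inl ht.ne')).const_mul ω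
  have h2 := (hasDerivAt_id t).const_mul c
  refine (h1.add h2).congr_deriv ?_
  rw [show ω - 1 - 1 = ω - 2 by ring]
  ring

theorem lower (ω x y z : ℝ) (h0 : 0 < ω) (h1 : ω < 1) (hx : 0 < x) (hxy : x < y) (hyz : y < z)
    (hz : z ≤ 1) :
    ω * (1 - ω) / 2 * ((y - x) * (z - y) * (z - x)) ≤ EE (fun t => t ^ ω) x y z := by
  have hw : 0 < ω * (1 - ω) := mul_pos h0 (by linarith)
  have hc : ConcaveOn ℝ (Icc x z) (fun t : ℝ => t ^ ω + (ω * (1 - ω)) / 2 * t ^ 2) := by
    apply concaveOn_of_hasDerivWithinAt2_nonpos (convex_Icc x z)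
      (f' := fun t => ω * t ^ (ω - 1) + (ω * (1 - ω)) * t)
      (f'' := fun t => (ω * (1 - ω)) - ω * (1 - ω) * t ^ (ω - 2))
    · intro t ht
      exact (deriv1 ω _ t (lt_of_lt_of_le hx ht.1)).continuousAt.continuousWithinAt
    · intro t ht
      rw [interior_Icc] at ht
      exact (deriv1 ω _ t (hx.trans ht.1)).hasDerivWithinAt
    · intro t ht
      rw [interior_Icc] at ht
      exact (deriv2 ω _ t (hx.trans ht.1)).hasDerivWithinAt
    · intro t ht
      rw [interior_Icc] at ht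
      have ht0 : 0 < t := hx.trans ht.1
      have ht1 : t ≤ 1 := ht.2.le.trans hz
      have h2 : 1 ≤ t ^ (ω - 2) :=
        Real.one_le_rpow_of_pos_of_le_one_of_nonpos ht0 ht1 (by linarith)
      nlinarith
  have h2 := EE_concave hc (left_mem_Icc.2 (hxy.trans hyz).le) (right_mem_Icc.2 (hxy.trans hyz).le)
    hxy hyz
  rw [EE_add (fun t => t ^ ω)] at h2
  linarith

theorem upper (ω x y z : ℝ) (h0 : 0 < ω) (h1 : ω < 1) (hx : 0 < x) (hxy : x < y) (hyz : y < z) :
    EE (fun t => t ^ ω) x y z ≤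
      ω * (1 - ω) * x ^ (ω - 2) / 2 * ((y - x) * (z - y) * (z - x)) := by
  have hw : 0 < ω * (1 - ω) := mul_pos h0 (by linarith)
  have hc : ConvexOn ℝ (Icc x z)
      (fun t : ℝ => t ^ ω + (ω * (1 - ω) * x ^ (ω - 2)) / 2 * t ^ 2) := by
    apply convexOn_of_hasDerivWithinAt2_nonneg (convex_Icc x z)
      (f' := fun t => ω * t ^ (ω - 1) + (ω * (1 - ω) * x ^ (ω - 2)) * t)
      (f'' := fun t => (ω * (1 - ω) * x ^ (ω - 2)) - ω * (1 - ω) * t ^ (ω - 2))
    · intro t ht
      exact (deriv1 ω _ t (lt_of_lt_of_le hx ht.1)).continuousAt.continuousWithinAt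
    · intro t ht
      rw [interior_Icc] at ht
      exact (deriv1 ω _ t (hx.trans ht.1)).hasDerivWithinAt
    · intro t ht
      rw [interior_Icc] at ht
      exact (deriv2 ω _ t (hx.trans ht.1)).hasDerivWithinAt
    · intro t ht
      rw [interior_Icc] at ht
      have h2 : t ^ (ω - 2) ≤ x ^ (ω - 2) :=
        Real.rpow_le_rpow_of_nonpos hx ht.1.le (by linarith)
      nlinarith
  have h2 := EE_convex hc (left_mem_Icc.2 (hxy.trans hyz).le) (right_mem_Icc.2 (hxy.trans hyz).le)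
    hxy hyz
  rw [EE_add (fun t => t ^ ω)] at h2
  linarith

end Pool.Agent.TH961.SD
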