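import Pool.Agent.TH961.SD.Tr

set_option autoImplicit false

/-!
The large sieve for generic large dilates.
-/

namespace Pool.Agent.TH961.SD

open Finset MeasureTheory

/-- the bound for the mean of the (reduced) third trace -/
noncomputable def FF (N R : ℕ) : ℝ :=
  6 * (N:ℝ) ^ 2 * (R:ℝ) ^ 2 + 5 * N * (1 + Real.log N) ^ 2 * (R:ℝ) ^ 3

theorem FF_nonneg (N R : ℕ) : 0 ≤ FF N R := by
  unfold FF
  have := Real.log_natCast_nonneg N
  positivity

theorem base (N : ℕ) (hN : 1 ≤ N) (S : Finset ℝ)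
    (hS : ∀ s ∈ S, ∀ t ∈ S, s ≠ t → 128 * (N:ℝ) ^ 8 ≤ |s - t|) (η : ℝ) (hη : 0 < η) :
    ∃ E : Set ℝ, MeasurableSet E ∧ volume E ≤ ENNReal.ofReal η ∧ ∀ x ∈ Set.Icc (1:ℝ) 2, x ∉ E →
      ∃ μ : ℝ, 0 ≤ μ ∧
      (∀ a : ℕ → ℂ, ∑ s ∈ S, ‖∑ n ∈ Icc 1 N, a n *
        Complex.exp ((x * s * Real.log n : ℝ) * Complex.I)‖ ^ 2 ≤
          μ * ∑ n ∈ Icc 1 N, ‖a n‖ ^ 2) ∧
      (N ≤ μ → (μ - N) ^ 3 ≤ FF N S.card / η) := by
  have hNr : (1:ℝ) ≤ N := by exact_mod_cast hN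
  rcases S.eq_empty_or_nonempty with h0 | h0
  · refine ⟨∅, MeasurableSet.empty, by simp, fun x _ _ => ⟨0, le_rfl, ?_, ?_⟩⟩
    · intro a
      rw [h0]; simp
    · intro h; linarith
  set f : ℝ → ℝ := fun x => TR N S x - (N:ℝ) ^ 3 * S.card with hf
  have hfc : Continuous f := (TR_cont N S).sub continuous_const
  have hf0 : ∀ x, 0 ≤ f x := by
    intro x
    obtain ⟨μ, hμ0, _, hμ⟩ := eig N S h0 x
    refine le_trans ?_ hμ
    positivity
  have hR : (1:ℝ) ≤ S.card := by exact_mod_cast h0.card_pos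
  have hlN : 0 ≤ Real.log N := Real.log_nonneg hNr
  have hF0 : 0 < FF N S.card := by
    unfold FF
    positivity
  have hint : ∫ x in (1:ℝ)..2, f x ≤ FF N S.card := by
    have h1 := int_TR_le N hN S hS
    have h2 : ∫ x in (1:ℝ)..2, f x = (∫ x in (1:ℝ)..2, TR N S x) - (N:ℝ) ^ 3 * S.card := by
      rw [hf, intervalIntegral.integral_sub ((TR_cont N S).intervalIntegrable _ _)
        (continuous_const.intervalIntegrable _ _), intervalIntegral.integral_const]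
      norm_num
    rw [h2]
    unfold FF
    linarith
  have hI : Integrable f (volume.restrict (Set.Icc (1:ℝ) 2)) :=
    hfc.continuousOn.integrableOn_compact isCompact_Icc
  have h1 := mul_meas_ge_le_integral_of_nonneg (μ := volume.restrict (Set.Icc (1:ℝ) 2))
    (f := f) (Filter.Eventually.of_forall hf0) hI (FF N S.card / η)
  have h2 : ∫ x in Set.Icc (1:ℝ) 2, f x = ∫ x in (1:ℝ)..2, f x := by
    rw [intervalIntegral.integral_of_le (by norm_num), integral_Icc_eq_integral_Ioc]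
  rw [h2] at h1
  have hmeas : MeasurableSet {x | FF N S.card / η ≤ f x} :=
    measurableSet_le measurable_const hfc.measurable
  refine ⟨{x | FF N S.card / η ≤ f x} ∩ Set.Icc 1 2, hmeas.inter measurableSet_Icc, ?_, ?_⟩
  · rw [← Measure.restrict_apply hmeas]
    have hfin : (volume.restrict (Set.Icc (1:ℝ) 2)) {x | FF N S.card / η ≤ f x} ≠ ⊤ :=
      measure_ne_top (volume.restrict (Set.Icc (1:ℝ) 2)) _
    rw [← ENNReal.ofReal_toReal hfin]
    apply ENNReal.ofReal_le_ofReal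
    have h4 : FF N S.card / η *
        (volume.restrict (Set.Icc (1:ℝ) 2)).real {x | FF N S.card / η ≤ f x} ≤ FF N S.card :=
      h1.trans hint
    have h6 : FF N S.card *
        ((volume.restrict (Set.Icc (1:ℝ) 2)).real {x | FF N S.card / η ≤ f x}) ≤
        FF N S.card * η := by
      calc _ = η * (FF N S.card / η *
          (volume.restrict (Set.Icc (1:ℝ) 2)).real {x | FF N S.card / η ≤ f x}) := by
            field_simp
        _ ≤ η * FF N S.card := by gcongr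
        _ = _ := by ring
    exact le_of_mul_le_mul_left h6 hF0
  · intro x hx hxE
    have hlt : f x < FF N S.card / η := by
      by_contra h
      exact hxE ⟨not_lt.1 h, hx⟩
    obtain ⟨μ, hμ0, hμ1, hμ2⟩ := eig N S h0 x
    refine ⟨μ, hμ0, hμ1, ?_⟩
    intro hle
    have h5 : (μ - N) ^ 3 ≤ (μ - N) ^ 2 * (μ + 2 * N) := by
      have : 0 ≤ (μ - N) ^ 2 := sq_nonneg _
      nlinarith
    exact (h5.trans hμ2).trans hlt.le

theorem scaled (N : ℕ) (hN : 1 ≤ N) (S : Finset ℝ)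
    (hS : ∀ s ∈ S, ∀ t ∈ S, s ≠ t → 1 ≤ |s - t|) (Λ η : ℝ) (hΛ : 128 * (N:ℝ) ^ 8 ≤ Λ)
    (hη : 0 < η) :
    ∃ E : Set ℝ, MeasurableSet E ∧ volume E ≤ ENNReal.ofReal (η * Λ) ∧
      ∀ x ∈ Set.Icc Λ (2 * Λ), x ∉ E →
      ∃ μ : ℝ, 0 ≤ μ ∧
      (∀ a : ℕ → ℂ, ∑ s ∈ S, ‖∑ n ∈ Icc 1 N, a n *
        Complex.exp ((x * s * Real.log n : ℝ) * Complex.I)‖ ^ 2 ≤
          μ * ∑ n ∈ Icc 1 N, ‖a n‖ ^ 2) ∧
      (N ≤ μ → (μ - N) ^ 3 ≤ FF N S.card / η) := by
  classical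
  have hNr : (1:ℝ) ≤ N := by exact_mod_cast hN
  have hN8 : (1:ℝ) ≤ (N:ℝ) ^ 8 := one_le_pow₀ hNr
  have hΛ0 : 0 < Λ := by linarith
  have hinj : Function.Injective (fun s : ℝ => Λ * s) := by
    intro s t h
    exact mul_left_cancel₀ hΛ0.ne' h
  set S' := S.image (fun s => Λ * s) with hS'
  have hsep : ∀ s ∈ S', ∀ t ∈ S', s ≠ t → 128 * (N:ℝ) ^ 8 ≤ |s - t| := by
    intro s hs t ht hst
    obtain ⟨u, hu, rfl⟩ := mem_image.1 hs
    obtain ⟨v, hv, rfl⟩ := mem_image.1 ht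
    have huv : u ≠ v := fun h => hst (by rw [h])
    have := hS u hu v hv huv
    rw [← mul_sub, abs_mul, abs_of_pos hΛ0]
    nlinarith
  have hcard : S'.card = S.card := card_image_of_injective _ hinj
  obtain ⟨E, hE1, hE2, hE3⟩ := base N hN S' hsep η hη
  refine ⟨(fun x => Λ⁻¹ * x) ⁻¹' E, (measurable_const_mul Λ⁻¹) hE1, ?_, ?_⟩
  · rw [Real.volume_preimage_mul_left (inv_ne_zero hΛ0.ne'), inv_inv, abs_of_pos hΛ0, mul_comm η,
      ENNReal.ofReal_mul hΛ0.le]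
    gcongr
  · intro x hx hxE
    have hx' : Λ⁻¹ * x ∈ Set.Icc (1:ℝ) 2 := by
      constructor
      · have := mul_le_mul_of_nonneg_left hx.1 (inv_nonneg.2 hΛ0.le)
        rwa [inv_mul_cancel₀ hΛ0.ne'] at this
      · have := mul_le_mul_of_nonneg_left hx.2 (inv_nonneg.2 hΛ0.le)
        calc Λ⁻¹ * x ≤ Λ⁻¹ * (2 * Λ) := this
          _ = 2 := by field_simp
    obtain ⟨μ, h1, h2, h3⟩ := hE3 _ hx' hxE
    refine ⟨μ, h1, ?_, ?_⟩
    · intro a
      have h4 := h2 a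
      rw [hS', sum_image (fun s _ t _ h => hinj h)] at h4
      refine le_trans (le_of_eq ?_) h4
      apply sum_congr rfl
      intro s _
      congr 2
      apply sum_congr rfl
      intro n _
      rw [show Λ⁻¹ * x * (Λ * s) * Real.log n = x * s * Real.log n by field_simp]
    · rw [← hcard]
      exact h3

/-- the final form -/
theorem final (N : ℕ) (hN : 1 ≤ N) (S : Finset ℝ)
    (hS : ∀ s ∈ S, ∀ t ∈ S, s ≠ t → 1 ≤ |s - t|) (Λ η : ℝ) (hΛ : 128 * (N:ℝ) ^ 8 ≤ Λ)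
    (hη : 0 < η) :
    ∃ E : Set ℝ, MeasurableSet E ∧ volume E ≤ ENNReal.ofReal (η * Λ) ∧
      ∀ x ∈ Set.Icc Λ (2 * Λ), x ∉ E →
      (∀ a : ℕ → ℂ, ∑ s ∈ S, ‖∑ n ∈ Icc 1 N, a n *
        Complex.exp ((x * s * Real.log n : ℝ) * Complex.I)‖ ^ 2 ≤
          (N + (FF N S.card / η) ^ (1 / 3 : ℝ)) * ∑ n ∈ Icc 1 N, ‖a n‖ ^ 2) ∧
      (∀ (a : ℕ → ℂ) (V : ℝ), (∀ n, ‖a n‖ ≤ 1) → 0 < V →
        34 * (N:ℝ) ^ 4 * (1 + Real.log N) ^ 2 ≤ η * V ^ 6 →
        (∀ s ∈ S, V ≤ ‖∑ n ∈ Icc 1 N, a n *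
          Complex.exp ((x * s * Real.log n : ℝ) * Complex.I)‖) →
        (S.card : ℝ) ≤ 3 * ((N:ℝ) ^ 2 / V ^ 2) + 41 / η * ((N:ℝ) ^ 5 / V ^ 6)) := by
  obtain ⟨E, hE1, hE2, hE3⟩ := scaled N hN S hS Λ η hΛ hη
  refine ⟨E, hE1, hE2, ?_⟩
  intro x hx hxE
  obtain ⟨μ, hμ0, hμ1, hμ2⟩ := hE3 x hx hxE
  have hNr : (1:ℝ) ≤ N := by exact_mod_cast hN
  have hlN : 0 ≤ Real.log N := Real.log_nonneg hNr
  have hFη : 0 ≤ FF N S.card / η := div_nonneg (FF_nonneg _ _) hη.le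
  refine ⟨?_, ?_⟩
  · intro a
    refine (hμ1 a).trans ?_
    apply mul_le_mul_of_nonneg_right _ (sum_nonneg (fun _ _ => by positivity))
    rcases le_total μ N with h | h
    · have : 0 ≤ (FF N S.card / η) ^ (1 / 3 : ℝ) := Real.rpow_nonneg hFη _
      linarith
    · have h1 := hμ2 h
      have h2 : μ - N = ((μ - N) ^ 3) ^ (1 / 3 : ℝ) := by
        rw [← Real.rpow_natCast (μ - N) 3, ← Real.rpow_mul (by linarith)]
        norm_num
      have h3 : ((μ - N) ^ 3) ^ (1 / 3 : ℝ) ≤ (FF N S.card / η) ^ (1 / 3 : ℝ) :=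
        Real.rpow_le_rpow (pow_nonneg (by linarith) 3) h1 (by norm_num)
      linarith
  · intro a V ha hV hVN hlarge
    set R : ℝ := (S.card : ℝ) with hR
    have hR0 : 0 ≤ R := by positivity
    have h1 : R * V ^ 2 ≤ μ * N := by
      have e1 : R * V ^ 2 ≤ ∑ s ∈ S, ‖∑ n ∈ Icc 1 N, a n *
          Complex.exp ((x * s * Real.log n : ℝ) * Complex.I)‖ ^ 2 := by
        calc R * V ^ 2 = ∑ s ∈ S, V ^ 2 := by rw [sum_const, nsmul_eq_mul]
          _ ≤ _ := sum_le_sum (fun s hs => by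
            have := hlarge s hs
            gcongr)
      have e2 : ∑ n ∈ Icc 1 N, ‖a n‖ ^ 2 ≤ N := by
        calc ∑ n ∈ Icc 1 N, ‖a n‖ ^ 2 ≤ ∑ n ∈ Icc 1 N, (1:ℝ) := sum_le_sum (fun n _ => by
              have := ha n
              have := norm_nonneg (a n)
              nlinarith)
          _ = N := by simp
      calc _ ≤ _ := e1
        _ ≤ _ := hμ1 a
        _ ≤ μ * N := by gcongr
    have hV2 : 0 < V ^ 2 := by positivity
    have hV6 : 0 < V ^ 6 := by positivity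
    have hN0 : (0:ℝ) < N := by linarith
    have hB1 : 0 ≤ 41 / η * ((N:ℝ) ^ 5 / V ^ 6) := by positivity
    have hB2 : 0 ≤ 3 * ((N:ℝ) ^ 2 / V ^ 2) := by positivity
    rcases le_total (R * V ^ 2) (3 * (N:ℝ) ^ 2) with h | h
    · have : R ≤ 3 * ((N:ℝ) ^ 2 / V ^ 2) := by
        rw [← mul_div_assoc, le_div_iff₀ hV2]
        exact h
      linarith
    · -- μ ≥ 3N
      have h3 : 3 * (N:ℝ) ≤ μ := by
        have : 3 * (N:ℝ) * N ≤ μ * N := by nlinarith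
        exact le_of_mul_le_mul_right this hN0
      have h4 := hμ2 (by linarith)
      have h5 : 2 / 3 * μ ≤ μ - N := by linarith
      have h6 : (2 / 3 * μ) ^ 3 ≤ FF N S.card / η :=
        (pow_le_pow_left₀ (by positivity) h5 3).trans h4
      have h7 : (R * V ^ 2) ^ 3 ≤ (μ * N) ^ 3 := pow_le_pow_left₀ (by positivity) h1 3
      have h8 : 8 / 27 * (R * V ^ 2) ^ 3 ≤ (N:ℝ) ^ 3 * (FF N S.card / η) := by
        calc 8 / 27 * (R * V ^ 2) ^ 3 ≤ 8 / 27 * (μ * N) ^ 3 := by gcongr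
          _ = (N:ℝ) ^ 3 * (2 / 3 * μ) ^ 3 := by ring
          _ ≤ _ := by gcongr
      have h9 : 8 / 27 * (R * V ^ 2) ^ 3 * η ≤ (N:ℝ) ^ 3 * FF N S.card := by
        calc 8 / 27 * (R * V ^ 2) ^ 3 * η ≤ ((N:ℝ) ^ 3 * (FF N S.card / η)) * η := by gcongr
          _ = _ := by field_simp
      have h10 : (N:ℝ) ^ 3 * FF N S.card = 6 * (N:ℝ) ^ 5 * R ^ 2 +
          5 / 34 * (34 * (N:ℝ) ^ 4 * (1 + Real.log N) ^ 2) * R ^ 3 := by
        unfold FF; rw [← hR]; ring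
      have h11 : 5 / 34 * (34 * (N:ℝ) ^ 4 * (1 + Real.log N) ^ 2) * R ^ 3 ≤
          5 / 34 * (η * V ^ 6) * R ^ 3 := by gcongr
      have hRpos : 0 < R := by
        by_contra hneg
        have : R = 0 := le_antisymm (not_lt.1 hneg) hR0
        rw [this] at h
        nlinarith
      have h12 : (8 / 27 - 5 / 34) * (R ^ 3 * (η * V ^ 6)) ≤ 6 * (N:ℝ) ^ 5 * R ^ 2 := by
        rw [h10] at h9
        have e1 : 8 / 27 * (R * V ^ 2) ^ 3 * η = 8 / 27 * (R ^ 3 * (η * V ^ 6)) := by ring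
        have e2 : 5 / 34 * (η * V ^ 6) * R ^ 3 = 5 / 34 * (R ^ 3 * (η * V ^ 6)) := by ring
        rw [e1] at h9
        rw [e2] at h11
        linarith
      have h13 : R * (η * V ^ 6) ≤ 41 * (N:ℝ) ^ 5 := by
        have e1 : R ^ 2 * (R * (η * V ^ 6)) ≤ R ^ 2 * (41 * (N:ℝ) ^ 5) := by
          have e2 : 0 ≤ R ^ 3 * (η * V ^ 6) := by positivity
          nlinarith [pow_pos hN0 5]
        exact le_of_mul_le_mul_left e1 (by positivity)
      have h14 : R ≤ 41 / η * ((N:ℝ) ^ 5 / V ^ 6) := by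
        rw [div_mul_div_comm, le_div_iff₀ (by positivity)]
        exact h13
      linarith

end Pool.Agent.TH961.SD
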