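import Mathlib

set_option autoImplicit false

/-!
Largest eigenvalue from the third trace.
-/

namespace Pool.Agent.TH961.SD

open Matrix
open scoped ComplexOrder

theorem trace_cube {n : Type*} [Fintype n] [DecidableEq n] (B : Matrix n n ℂ)
    (hB : B.IsHermitian) : (B * B * B).trace = ∑ i, ((hB.eigenvalues i : ℝ) : ℂ) ^ 3 := by
  have h := hB.spectral_theorem
  set D : Matrix n n ℂ := diagonal (RCLike.ofReal ∘ hB.eigenvalues) with hD
  set φ := Unitary.conjStarAlgAut ℂ (Matrix n n ℂ) hB.eigenvectorUnitary with hφ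
  have h3 : B * B * B = φ (D * D * D) := by
    rw [map_mul, map_mul, ← h]
  rw [h3, hφ, Unitary.conjStarAlgAut_apply, Matrix.trace_mul_comm, ← mul_assoc,
    Unitary.coe_star_mul_self, one_mul, hD, diagonal_mul_diagonal, diagonal_mul_diagonal,
    trace_diagonal]
  apply Finset.sum_congr rfl
  intro i _
  simp only [Function.comp_apply]
  change ((hB.eigenvalues i : ℝ) : ℂ) * ((hB.eigenvalues i : ℝ) : ℂ) *
    ((hB.eigenvalues i : ℝ) : ℂ) = _
  ring

theorem rayleigh {n : Type*} [Fintype n] [DecidableEq n] (B : Matrix n n ℂ)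
    (hB : B.IsHermitian) (c : ℝ) (hc : ∀ i, hB.eigenvalues i ≤ c) (y : n → ℂ) :
    (star y ⬝ᵥ (B *ᵥ y)).re ≤ c * ∑ i, ‖y i‖ ^ 2 := by
  have h := hB.spectral_theorem
  set D : Matrix n n ℂ := diagonal (RCLike.ofReal ∘ hB.eigenvalues) with hD
  have hpsd : ((c : ℂ) • (1 : Matrix n n ℂ) - B).PosSemidef := by
    have h1 : (diagonal (fun i => ((c - hB.eigenvalues i : ℝ) : ℂ))).PosSemidef := by
      rw [posSemidef_diagonal_iff]
      intro i
      have := hc i
      exact_mod_cast (by linarith : (0:ℝ) ≤ c - hB.eigenvalues i)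
    have h2 := h1.mul_mul_conjTranspose_same (hB.eigenvectorUnitary : Matrix n n ℂ)
    convert h2 using 1
    have h4 : (diagonal (fun i => ((c - hB.eigenvalues i : ℝ) : ℂ))) =
        (c : ℂ) • (1 : Matrix n n ℂ) - D := by
      rw [hD]
      ext i j
      by_cases hij : i = j
      · subst hij
        simp
      · simp [hij]
    rw [h4, mul_sub, sub_mul]
    congr 1
    · rw [mul_smul_comm, smul_mul_assoc, mul_one, ← Matrix.star_eq_conjTranspose,
        Unitary.mul_star_self_of_mem hB.eigenvectorUnitary.2]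
  have h5 := hpsd.re_dotProduct_nonneg y
  rw [Matrix.sub_mulVec, Matrix.smul_mulVec, Matrix.one_mulVec, dotProduct_sub,
    dotProduct_smul] at h5
  have h6 : star y ⬝ᵥ y = ((∑ i, ‖y i‖ ^ 2 : ℝ) : ℂ) := by
    rw [dotProduct]
    push_cast
    apply Finset.sum_congr rfl
    intro i _
    rw [Pi.star_apply, mul_comm]
    exact Complex.mul_conj' (y i)
  rw [h6] at h5
  have h7 : RCLike.re ((c : ℂ) • ((∑ i, ‖y i‖ ^ 2 : ℝ) : ℂ) - star y ⬝ᵥ (B *ᵥ y)) =
      c * ∑ i, ‖y i‖ ^ 2 - (star y ⬝ᵥ (B *ᵥ y)).re := by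
    rw [map_sub, smul_eq_mul, ← Complex.ofReal_mul]
    rfl
  rw [h7] at h5
  linarith

theorem spec {n : Type*} [Fintype n] [DecidableEq n] [Nonempty n] (B : Matrix n n ℂ)
    (hB : B.PosSemidef) (c : ℝ) (hc : 0 ≤ c) (htr : B.trace = ((c * Fintype.card n : ℝ) : ℂ)) :
    ∃ μ : ℝ, 0 ≤ μ ∧ (∀ y : n → ℂ, (star y ⬝ᵥ (B *ᵥ y)).re ≤ μ * ∑ i, ‖y i‖ ^ 2) ∧
      (μ - c) ^ 2 * (μ + 2 * c) ≤ (B * B * B).trace.re - c ^ 3 * Fintype.card n := by
  have hH := hB.1
  obtain ⟨i0, hi0⟩ := Finite.exists_max hH.eigenvalues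
  have hnn := hB.eigenvalues_nonneg
  refine ⟨hH.eigenvalues i0, hnn i0, fun y => rayleigh B hH _ hi0 y, ?_⟩
  have h1 : (B * B * B).trace.re = ∑ i, (hH.eigenvalues i) ^ 3 := by
    rw [trace_cube B hH, Complex.re_sum]
    apply Finset.sum_congr rfl
    intro i _
    rw [← Complex.ofReal_pow, Complex.ofReal_re]
  have h2 : ∑ i, hH.eigenvalues i = c * Fintype.card n := by
    have := hH.trace_eq_sum_eigenvalues
    rw [htr] at this
    have h3 : ((c * Fintype.card n : ℝ) : ℂ) = ((∑ i, hH.eigenvalues i : ℝ) : ℂ) := by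
      rw [this]; push_cast; rfl
    exact_mod_cast (Complex.ofReal_injective h3).symm
  have h3 : (B * B * B).trace.re - c ^ 3 * Fintype.card n =
      ∑ i, (hH.eigenvalues i - c) ^ 2 * (hH.eigenvalues i + 2 * c) := by
    have e1 : ∀ i, (hH.eigenvalues i - c) ^ 2 * (hH.eigenvalues i + 2 * c) =
        (hH.eigenvalues i) ^ 3 - 3 * c ^ 2 * hH.eigenvalues i + 2 * c ^ 3 := by
      intro i; ring
    rw [Finset.sum_congr rfl (fun i _ => e1 i), Finset.sum_add_distrib, Finset.sum_sub_distrib,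
      ← Finset.mul_sum, h2, Finset.sum_const, Finset.card_univ, nsmul_eq_mul, h1]
    ring
  rw [h3]
  exact Finset.single_le_sum (f := fun i => (hH.eigenvalues i - c) ^ 2 *
    (hH.eigenvalues i + 2 * c)) (fun i _ => by have := hnn i; positivity) (Finset.mem_univ i0)

end Pool.Agent.TH961.SD
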