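import Pool.Agent.TH961.SD.Cvx

set_option autoImplicit false

/-!
Three near-solutions of `ω log n₁ + (1-ω) log n₂ = log n₃` cannot be close to each other.
-/

namespace Pool.Agent.TH961.SD

theorem near (X Y ω ε : ℝ) (hX : 0 < X) (hX1 : X ≤ 1) (hY : 0 < Y) (h0 : 0 < ω)
    (hε : ε ≤ 1) (h : |Real.log Y - ω * Real.log X| ≤ ε) : |Y - X ^ ω| ≤ 2 * ε := by
  have h1 : Y = X ^ ω * Real.exp (Real.log Y - ω * Real.log X) := by
    rw [Real.rpow_def_of_pos hX, ← Real.exp_add]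
    rw [show Real.log X * ω + (Real.log Y - ω * Real.log X) = Real.log Y by ring,
      Real.exp_log hY]
  have h2 : X ^ ω ≤ 1 := Real.rpow_le_one hX.le hX1 h0.le
  have h3 : 0 < X ^ ω := Real.rpow_pos_of_pos hX ω
  have h4 := Real.abs_exp_sub_one_le (x := Real.log Y - ω * Real.log X) (h.trans hε)
  have h5 : Y - X ^ ω = X ^ ω * (Real.exp (Real.log Y - ω * Real.log X) - 1) := by
    rw [mul_sub, ← h1, mul_one]
  rw [h5, abs_mul, abs_of_pos h3]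
  calc X ^ ω * |Real.exp (Real.log Y - ω * Real.log X) - 1|
      ≤ 1 * (2 * |Real.log Y - ω * Real.log X|) := by
        apply mul_le_mul h2 h4 (abs_nonneg _) (by norm_num)
    _ ≤ 2 * ε := by linarith

/-- analytic part -/
theorem analytic (N : ℝ) (hN : 1 ≤ N) (ω ρ x y z Y₁ Y₂ Y₃ τ : ℝ) (h0 : 0 < ω) (h1 : ω < 1)
    (hρ0 : 0 ≤ ρ) (hρ : 32 * N ^ 6 * ρ ≤ 1) (hx : 0 < x) (hz : z ≤ 1)
    (hxy : 1 / N ^ 2 ≤ y - x) (hyz : 1 / N ^ 2 ≤ z - y)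
    (hY1 : |Y₁ - x ^ ω| ≤ 2 * (ρ * (ω * (1 - ω)))) (hY2 : |Y₂ - y ^ ω| ≤ 2 * (ρ * (ω * (1 - ω))))
    (hY3 : |Y₃ - z ^ ω| ≤ 2 * (ρ * (ω * (1 - ω)))) (hτ1 : τ ≤ 1)
    (hτ : Real.log z - Real.log x ≤ τ) :
    0 < (z - y) * (Y₂ - Y₁) - (y - x) * (Y₃ - Y₂) ∧
      (z - y) * (Y₂ - Y₁) - (y - x) * (Y₃ - Y₂) ≤ 5 / 16 * τ ^ 3 := by
  have hN0 : 0 < N := by linarith
  have hN2 : 0 < 1 / N ^ 2 := by positivity
  have hxy' : x < y := by linarith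
  have hyz' : y < z := by linarith
  have hxz' : x < z := by linarith
  set w := ω * (1 - ω) with hw
  have hw0 : 0 < w := mul_pos h0 (by linarith)
  have hw4 : w ≤ 1 / 4 := by rw [hw]; nlinarith [sq_nonneg (ω - 1 / 2)]
  have hlow := lower ω x y z h0 h1 hx hxy' hyz' hz
  have hup := upper ω x y z h0 h1 hx hxy' hyz'
  rw [← hw] at hlow hup
  have a1 := abs_le.1 hY1
  have a2 := abs_le.1 hY2
  have a3 := abs_le.1 hY3
  set G := (z - y) * (Y₂ - Y₁) - (y - x) * (Y₃ - Y₂) with hG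
  have hE : EE (fun t => t ^ ω) x y z =
    (z - y) * (y ^ ω - x ^ ω) - (y - x) * (z ^ ω - y ^ ω) := rfl
  set E := EE (fun t => t ^ ω) x y z with hEdef
  have hdiff : |G - E| ≤ 4 * (ρ * w) := by
    have e1 : G - E = (z - y) * ((Y₂ - y ^ ω) - (Y₁ - x ^ ω)) -
        (y - x) * ((Y₃ - z ^ ω) - (Y₂ - y ^ ω)) := by rw [hE, hG]; ring
    rw [e1]
    have e2 : |(z - y) * ((Y₂ - y ^ ω) - (Y₁ - x ^ ω))| ≤ (z - y) * (4 * (ρ * w)) := by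
      rw [abs_mul, abs_of_pos (by linarith : 0 < z - y)]
      apply mul_le_mul_of_nonneg_left _ (by linarith)
      rw [abs_le]; constructor <;> linarith
    have e3 : |(y - x) * ((Y₃ - z ^ ω) - (Y₂ - y ^ ω))| ≤ (y - x) * (4 * (ρ * w)) := by
      rw [abs_mul, abs_of_pos (by linarith : 0 < y - x)]
      apply mul_le_mul_of_nonneg_left _ (by linarith)
      rw [abs_le]; constructor <;> linarith
    have e4 := abs_sub ((z - y) * ((Y₂ - y ^ ω) - (Y₁ - x ^ ω)))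
      ((y - x) * ((Y₃ - z ^ ω) - (Y₂ - y ^ ω)))
    have e5 : (z - y) * (4 * (ρ * w)) + (y - x) * (4 * (ρ * w)) ≤ 4 * (ρ * w) := by
      have : 0 ≤ 4 * (ρ * w) := by positivity
      nlinarith
    linarith
  -- lower bound for E
  have hElow : w / (2 * N ^ 6) ≤ E := by
    have e1 : 1 / N ^ 6 ≤ (y - x) * (z - y) * (z - x) := by
      have b1 : 1 / N ^ 2 * (1 / N ^ 2) ≤ (y - x) * (z - y) :=
        mul_le_mul hxy hyz hN2.le (by linarith)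
      have b2 : 1 / N ^ 2 * (1 / N ^ 2) * (1 / N ^ 2) ≤ (y - x) * (z - y) * (z - x) :=
        mul_le_mul b1 (by linarith) hN2.le (by nlinarith)
      calc 1 / N ^ 6 = 1 / N ^ 2 * (1 / N ^ 2) * (1 / N ^ 2) := by
            field_simp
        _ ≤ _ := b2
    calc w / (2 * N ^ 6) = w / 2 * (1 / N ^ 6) := by field_simp
      _ ≤ w / 2 * ((y - x) * (z - y) * (z - x)) := by gcongr
      _ ≤ E := hlow
  have hE0 : 0 < E := lt_of_lt_of_le (by positivity) hElow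
  have herr : 4 * (ρ * w) ≤ E / 4 := by
    have e0 : ρ ≤ 1 / (32 * N ^ 6) := by
      rw [le_div_iff₀ (by positivity)]
      linarith
    have e1 : 4 * (ρ * w) ≤ w / (2 * N ^ 6) / 4 := by
      calc 4 * (ρ * w) ≤ 4 * (1 / (32 * N ^ 6) * w) := by gcongr
        _ = w / (2 * N ^ 6) / 4 := by field_simp; norm_num
    linarith
  have b := abs_le.1 hdiff
  refine ⟨by linarith, ?_⟩
  -- upper bound for E
  have hτ0 : 0 < τ := lt_of_lt_of_le (sub_pos.2 (Real.log_lt_log hx hxz')) hτ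
  have hzx : z - x ≤ x * (2 * τ) := by
    have e1 : z = x * Real.exp (Real.log z - Real.log x) := by
      rw [Real.exp_sub, Real.exp_log hx, Real.exp_log (hx.trans hxz')]
      field_simp
    have e2 : Real.exp (Real.log z - Real.log x) ≤ Real.exp τ := Real.exp_le_exp.2 hτ
    have e3 := Real.abs_exp_sub_one_le (x := τ) (by rw [abs_of_pos hτ0]; exact hτ1)
    rw [abs_of_pos hτ0] at e3
    have e4 := (abs_le.1 e3).2
    have e5 : z ≤ x * (1 + 2 * τ) := by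
      calc z = x * Real.exp (Real.log z - Real.log x) := e1
        _ ≤ x * (1 + 2 * τ) := by
          apply mul_le_mul_of_nonneg_left _ hx.le
          linarith
    linarith
  have hEup : E ≤ τ ^ 3 / 4 := by
    have e1 : (y - x) * (z - y) ≤ (z - x) ^ 2 / 4 := by nlinarith [sq_nonneg ((y - x) - (z - y))]
    have e2 : (y - x) * (z - y) * (z - x) ≤ (z - x) ^ 3 / 4 := by
      calc (y - x) * (z - y) * (z - x) ≤ (z - x) ^ 2 / 4 * (z - x) := by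
            apply mul_le_mul_of_nonneg_right e1 (by linarith)
        _ = _ := by ring
    have e3 : (z - x) ^ 3 ≤ (x * (2 * τ)) ^ 3 := pow_le_pow_left₀ (by linarith) hzx 3
    have hxp : 0 < x ^ (ω - 2) := Real.rpow_pos_of_pos hx _
    have e4 : x ^ (ω - 2) * x ^ 3 ≤ 1 := by
      have : x ^ (ω - 2) * x ^ 3 = x ^ (ω + 1) := by
        rw [← Real.rpow_natCast x 3, ← Real.rpow_add hx]
        congr 1
        push_cast; ring
      rw [this]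
      exact Real.rpow_le_one hx.le (by linarith) (by linarith)
    calc E ≤ w * x ^ (ω - 2) / 2 * ((y - x) * (z - y) * (z - x)) := hup
      _ ≤ (1 / 4) * x ^ (ω - 2) / 2 * ((x * (2 * τ)) ^ 3 / 4) := by
          apply mul_le_mul _ _ _ (by positivity)
          · gcongr
          · linarith
          · have : 0 < (y - x) * (z - y) := mul_pos (by linarith) (by linarith)
            exact (mul_pos this (by linarith)).le
      _ = (x ^ (ω - 2) * x ^ 3) * (τ ^ 3 / 4) := by ring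
      _ ≤ 1 * (τ ^ 3 / 4) := by gcongr
      _ = _ := by ring
  linarith

/-- the near-solutions with `n₁ ≤ n₂` -/
def IsNS (N : ℕ) (ω ρ : ℝ) (p : ℕ × ℕ × ℕ) : Prop :=
  1 ≤ p.1 ∧ p.1 ≤ p.2.1 ∧ p.2.1 ≤ N ∧ 1 ≤ p.2.2 ∧
    |Real.log p.2.2 - ω * Real.log p.1 - (1 - ω) * Real.log p.2.1| ≤ ρ * (ω * (1 - ω))

noncomputable def XX (p : ℕ × ℕ × ℕ) : ℝ := (p.1 : ℝ) / p.2.1

theorem XX_pos {N : ℕ} {ω ρ : ℝ} {p : ℕ × ℕ × ℕ} (h : IsNS N ω ρ p) : 0 < XX p := by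
  obtain ⟨h1, h2, _⟩ := h
  unfold XX
  have a1 : (0:ℝ) < p.1 := by exact_mod_cast h1
  have a2 : (0:ℝ) < p.2.1 := by exact_mod_cast (lt_of_lt_of_le h1 h2)
  positivity

theorem XX_le {N : ℕ} {ω ρ : ℝ} {p : ℕ × ℕ × ℕ} (h : IsNS N ω ρ p) : XX p ≤ 1 := by
  obtain ⟨h1, h2, _⟩ := h
  unfold XX
  have a2 : (0:ℝ) < p.2.1 := by exact_mod_cast (lt_of_lt_of_le h1 h2)
  rw [div_le_one a2]
  exact_mod_cast h2

theorem XX_sep {N : ℕ} {ω ρ : ℝ} {p q : ℕ × ℕ × ℕ} (hp : IsNS N ω ρ p) (hq : IsNS N ω ρ q)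
    (h : XX p < XX q) : 1 / (N:ℝ) ^ 2 ≤ XX q - XX p := by
  obtain ⟨p1, p2, p3, _⟩ := hp
  obtain ⟨q1, q2, q3, _⟩ := hq
  unfold XX at *
  have a1 : (0:ℝ) < p.2.1 := by exact_mod_cast (lt_of_lt_of_le p1 p2)
  have a2 : (0:ℝ) < q.2.1 := by exact_mod_cast (lt_of_lt_of_le q1 q2)
  have hN : (0:ℝ) < N := by exact_mod_cast (by omega : 0 < N)
  rw [div_lt_div_iff₀ a1 a2] at h
  have h1 : p.1 * q.2.1 < q.1 * p.2.1 := by exact_mod_cast h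
  have h2 : (p.1:ℝ) * q.2.1 + 1 ≤ q.1 * p.2.1 := by exact_mod_cast h1
  rw [div_sub_div _ _ a2.ne' a1.ne', div_le_div_iff₀ (by positivity) (by positivity)]
  have h3 : (q.2.1:ℝ) * p.2.1 ≤ (N:ℝ) ^ 2 := by
    have b1 : (p.2.1:ℝ) ≤ N := by exact_mod_cast p3
    have b2 : (q.2.1:ℝ) ≤ N := by exact_mod_cast q3
    nlinarith
  have h4 : 1 ≤ (q.1:ℝ) * p.2.1 - q.2.1 * p.1 := by nlinarith
  nlinarith [sq_nonneg (N:ℝ)]

theorem YY_near {N : ℕ} {ω ρ : ℝ} {p : ℕ × ℕ × ℕ} (h : IsNS N ω ρ p) (h0 : 0 < ω)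
    (hε : ρ * (ω * (1 - ω)) ≤ 1) :
    |(p.2.2:ℝ) / p.2.1 - XX p ^ ω| ≤ 2 * (ρ * (ω * (1 - ω))) := by
  have hX := XX_pos h
  have hX1 := XX_le h
  obtain ⟨h1, h2, h3, h4, h5⟩ := h
  have a0 : (0:ℝ) < p.1 := by exact_mod_cast h1
  have a1 : (0:ℝ) < p.2.1 := by exact_mod_cast (lt_of_lt_of_le h1 h2)
  have a2 : (0:ℝ) < p.2.2 := by exact_mod_cast h4
  apply near _ _ _ _ hX hX1 (by positivity) h0 hε
  unfold XX
  rw [Real.log_div a2.ne' a1.ne', Real.log_div a0.ne' a1.ne']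
  refine le_trans (le_of_eq ?_) h5
  congr 1
  ring

theorem three (N g : ℕ) (hg : 1 ≤ g) (hgN : g ≤ N) (ω ρ : ℝ) (h0 : 0 < ω) (h1 : ω < 1)
    (hρ0 : 0 ≤ ρ) (hρ : 32 * (N:ℝ) ^ 6 * ρ ≤ 1) (p q r : ℕ × ℕ × ℕ)
    (hp : IsNS N ω ρ p) (hq : IsNS N ω ρ q) (hr : IsNS N ω ρ r)
    (gp : g ∣ p.1 ∧ g ∣ p.2.1 ∧ g ∣ p.2.2) (gq : g ∣ q.1 ∧ g ∣ q.2.1 ∧ g ∣ q.2.2)
    (gr : g ∣ r.1 ∧ g ∣ r.2.1 ∧ g ∣ r.2.2)
    (hpq : XX p < XX q) (hqr : XX q < XX r)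
    (hτ : Real.log (XX r) - Real.log (XX p) ≤ (g:ℝ) / N) : False := by
  have hN : 1 ≤ N := hg.trans hgN
  have hNr : (1:ℝ) ≤ N := by exact_mod_cast hN
  have hN0 : (0:ℝ) < N := by linarith
  have hgr : (1:ℝ) ≤ g := by exact_mod_cast hg
  have hw0 : 0 < ω * (1 - ω) := mul_pos h0 (by linarith)
  have hw4 : ω * (1 - ω) ≤ 1 / 4 := by nlinarith [sq_nonneg (ω - 1 / 2)]
  have hN6 : (1:ℝ) ≤ (N:ℝ) ^ 6 := one_le_pow₀ hNr
  have hρ1 : ρ ≤ 1 := by nlinarith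
  have hε : ρ * (ω * (1 - ω)) ≤ 1 := by nlinarith
  have hτ1 : (g:ℝ) / N ≤ 1 := by
    rw [div_le_one hN0]; exact_mod_cast hgN
  obtain ⟨hG0, hG1⟩ := analytic N hNr ω ρ (XX p) (XX q) (XX r) _ _ _ (g / N) h0 h1 hρ0 hρ
    (XX_pos hp) (XX_le hr) (XX_sep hp hq hpq) (XX_sep hq hr hqr) (YY_near hp h0 hε)
    (YY_near hq h0 hε) (YY_near hr h0 hε) hτ1 hτ
  set G := (XX r - XX q) * ((q.2.2:ℝ) / q.2.1 - (p.2.2:ℝ) / p.2.1) -
    (XX q - XX p) * ((r.2.2:ℝ) / r.2.1 - (q.2.2:ℝ) / q.2.1) with hG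
  have b1 : (0:ℝ) < p.2.1 := by exact_mod_cast (lt_of_lt_of_le hp.1 hp.2.1)
  have b2 : (0:ℝ) < q.2.1 := by exact_mod_cast (lt_of_lt_of_le hq.1 hq.2.1)
  have b3 : (0:ℝ) < r.2.1 := by exact_mod_cast (lt_of_lt_of_le hr.1 hr.2.1)
  obtain ⟨⟨a, ha⟩, ⟨b, hb⟩, ⟨c, hc⟩⟩ := gp
  obtain ⟨⟨a', ha'⟩, ⟨b', hb'⟩, ⟨c', hc'⟩⟩ := gq
  obtain ⟨⟨a'', ha''⟩, ⟨b'', hb''⟩, ⟨c'', hc''⟩⟩ := gr
  let Z : ℤ := a * (b' * c'' - b'' * c') - b * (a' * c'' - a'' * c') + c * (a' * b'' - a'' * b')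
  have hZ : (p.2.1:ℝ) * q.2.1 * r.2.1 * G = (g:ℝ) ^ 3 * Z := by
    have e1 : (p.2.1:ℝ) * q.2.1 * r.2.1 * G =
        (p.1:ℝ) * (q.2.1 * r.2.2 - r.2.1 * q.2.2) - p.2.1 * (q.1 * r.2.2 - r.1 * q.2.2) +
          p.2.2 * (q.1 * r.2.1 - r.1 * q.2.1) := by
      rw [hG]
      unfold XX
      field_simp
      ring
    rw [e1, ha, hb, hc, ha', hb', hc', ha'', hb'', hc'']
    simp only [Z]
    push_cast
    ring
  have hZpos : 0 < (p.2.1:ℝ) * q.2.1 * r.2.1 * G := by positivity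
  have hg3 : (0:ℝ) < (g:ℝ) ^ 3 := by positivity
  rw [hZ] at hZpos
  have hZ0 : (0:ℝ) < Z := by
    by_contra h
    have : (g:ℝ) ^ 3 * Z ≤ 0 := mul_nonpos_of_nonneg_of_nonpos hg3.le (not_lt.1 h)
    linarith
  have hZ1 : (1:ℝ) ≤ Z := by
    have : 0 < Z := by exact_mod_cast hZ0
    exact_mod_cast this
  have c1 : (p.2.1:ℝ) ≤ N := by exact_mod_cast hp.2.2.1
  have c2 : (q.2.1:ℝ) ≤ N := by exact_mod_cast hq.2.2.1
  have c3 : (r.2.1:ℝ) ≤ N := by exact_mod_cast hr.2.2.1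
  have c4 : (p.2.1:ℝ) * q.2.1 * r.2.1 ≤ (N:ℝ) * N * N := by gcongr
  have c5 : (p.2.1:ℝ) * q.2.1 * r.2.1 * G ≤ (N:ℝ) * N * N * (5 / 16 * ((g:ℝ) / N) ^ 3) := by
    apply mul_le_mul c4 hG1 hG0.le (by positivity)
  have c6 : (N:ℝ) * N * N * (5 / 16 * ((g:ℝ) / N) ^ 3) = 5 / 16 * (g:ℝ) ^ 3 := by
    field_simp
  rw [hZ, c6] at c5
  nlinarith

end Pool.Agent.TH961.SD
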