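import Pool.Agent.TH961.SD.Cnt
import Pool.Agent.TH961.SD.Spec

set_option autoImplicit false

/-!
The third trace and its mean over the dilations.
-/

namespace Pool.Agent.TH961.SD

open Finset Matrix MeasureTheory
open scoped ComplexOrder

noncomputable def MM (N : ℕ) (S : Finset ℝ) (x : ℝ) : Matrix S (Icc 1 N : Finset ℕ) ℂ :=
  fun s n => Complex.exp ((x * (s:ℝ) * Real.log ((n:ℕ):ℝ) : ℝ) * Complex.I)

noncomputable def bb (N : ℕ) (x u : ℝ) : ℂ :=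
  ∑ n ∈ Icc 1 N, Complex.exp ((x * u * Real.log n : ℝ) * Complex.I)

theorem MM_mul (N : ℕ) (S : Finset ℝ) (x : ℝ) (s s' : S) :
    (MM N S x * (MM N S x)ᴴ) s s' = bb N x ((s:ℝ) - s') := by
  rw [Matrix.mul_apply]
  unfold bb
  rw [← Finset.sum_coe_sort (Icc 1 N)
    (fun n => Complex.exp ((x * ((s:ℝ) - s') * Real.log n : ℝ) * Complex.I))]
  apply Finset.sum_congr rfl
  intro n _
  rw [Matrix.conjTranspose_apply]
  unfold MM
  change _ * (starRingEnd ℂ) _ = _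
  rw [← Complex.exp_conj, map_mul, Complex.conj_ofReal, Complex.conj_I, ← Complex.exp_add]
  congr 1
  push_cast
  ring

theorem bbb_re (N : ℕ) (x u v w : ℝ) : (bb N x u * bb N x v * bb N x w).re =
    ∑ n₁ ∈ Icc 1 N, ∑ n₂ ∈ Icc 1 N, ∑ n₃ ∈ Icc 1 N,
      Real.cos (x * (u * Real.log n₁ + v * Real.log n₂ + w * Real.log n₃)) := by
  unfold bb
  rw [sum_mul_sum, sum_mul, Complex.re_sum]
  apply Finset.sum_congr rfl
  intro n₁ _
  rw [sum_mul, Complex.re_sum]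
  apply Finset.sum_congr rfl
  intro n₂ _
  rw [mul_sum, Complex.re_sum]
  apply Finset.sum_congr rfl
  intro n₃ _
  rw [← Complex.exp_add, ← Complex.exp_add]
  have : ((x * u * Real.log n₁ : ℝ) : ℂ) * Complex.I + ((x * v * Real.log n₂ : ℝ) : ℂ) * Complex.I +
      ((x * w * Real.log n₃ : ℝ) : ℂ) * Complex.I =
      ((x * (u * Real.log n₁ + v * Real.log n₂ + w * Real.log n₃) : ℝ) : ℂ) * Complex.I := by
    push_cast; ring
  rw [this, Complex.exp_ofReal_mul_I_re]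

noncomputable def TR (N : ℕ) (S : Finset ℝ) (x : ℝ) : ℝ :=
  ∑ s₁ ∈ S, ∑ s₃ ∈ S, ∑ s₂ ∈ S, ∑ n₁ ∈ Icc 1 N, ∑ n₂ ∈ Icc 1 N, ∑ n₃ ∈ Icc 1 N,
    Real.cos (x * ((s₁ - s₂) * Real.log n₁ + (s₂ - s₃) * Real.log n₂ + (s₃ - s₁) * Real.log n₃))

theorem trace_TR (N : ℕ) (S : Finset ℝ) (x : ℝ) :
    ((MM N S x * (MM N S x)ᴴ) * (MM N S x * (MM N S x)ᴴ) * (MM N S x * (MM N S x)ᴴ)).trace.re =
      TR N S x := by
  set B := MM N S x * (MM N S x)ᴴ with hB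
  have hBa : ∀ s s', B s s' = bb N x ((s:ℝ) - s') := fun s s' => MM_mul N S x s s'
  rw [Matrix.trace, Complex.re_sum]
  unfold TR
  rw [← Finset.sum_coe_sort S]
  apply Finset.sum_congr rfl
  intro s₁ _
  rw [Matrix.diag_apply, Matrix.mul_apply, Complex.re_sum, ← Finset.sum_coe_sort S]
  apply Finset.sum_congr rfl
  intro s₃ _
  rw [Matrix.mul_apply, sum_mul, Complex.re_sum, ← Finset.sum_coe_sort S]
  apply Finset.sum_congr rfl
  intro s₂ _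
  rw [hBa, hBa, hBa, bbb_re]

theorem trace_B (N : ℕ) (S : Finset ℝ) (x : ℝ) :
    (MM N S x * (MM N S x)ᴴ).trace = (((N:ℝ) * Fintype.card S : ℝ) : ℂ) := by
  rw [Matrix.trace]
  have : ∀ i ∈ (univ : Finset S), Matrix.diag (MM N S x * (MM N S x)ᴴ) i = (N:ℂ) := by
    intro i _
    rw [Matrix.diag_apply, MM_mul]
    unfold bb
    simp
  rw [Finset.sum_congr rfl this, Finset.sum_const, Finset.card_univ, nsmul_eq_mul]
  push_cast
  ring

theorem dual1 {m n : Type*} [Fintype m] [Fintype n] (M : Matrix m n ℂ) (y : m → ℂ)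
    (w : n → ℂ) : star y ⬝ᵥ (M *ᵥ w) = star (Mᴴ *ᵥ y) ⬝ᵥ w := by
  rw [Matrix.dotProduct_mulVec, Matrix.star_mulVec, Matrix.conjTranspose_conjTranspose]

/-- one eigenvalue controls the large sieve; the trace controls the eigenvalue -/
theorem eig (N : ℕ) (S : Finset ℝ) (hS : S.Nonempty) (x : ℝ) :
    ∃ μ : ℝ, 0 ≤ μ ∧
      (∀ a : ℕ → ℂ, ∑ s ∈ S, ‖∑ n ∈ Icc 1 N, a n *
        Complex.exp ((x * s * Real.log n : ℝ) * Complex.I)‖ ^ 2 ≤
          μ * ∑ n ∈ Icc 1 N, ‖a n‖ ^ 2) ∧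
      (μ - N) ^ 2 * (μ + 2 * N) ≤ TR N S x - (N:ℝ) ^ 3 * S.card := by
  classical
  have : Nonempty S := hS.to_subtype
  have hpsd := Matrix.posSemidef_self_mul_conjTranspose (MM N S x)
  obtain ⟨μ, hμ0, hμ1, hμ2⟩ := spec _ hpsd (N:ℝ) (Nat.cast_nonneg N) (trace_B N S x)
  rw [trace_TR] at hμ2
  have hcard : (Fintype.card S : ℝ) = S.card := by rw [Fintype.card_coe]
  rw [hcard] at hμ2
  refine ⟨μ, hμ0, ?_, hμ2⟩
  intro a
  set M := MM N S x with hM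
  set av : (Icc 1 N : Finset ℕ) → ℂ := fun n => a n with hav
  set y : S → ℂ := M *ᵥ av with hy
  have hyv : ∀ s : S, y s = ∑ n ∈ Icc 1 N, a n *
        Complex.exp ((x * s * Real.log n : ℝ) * Complex.I) := by
    intro s
    rw [hy, Matrix.mulVec, dotProduct, ← Finset.sum_coe_sort (Icc 1 N)]
    apply Finset.sum_congr rfl
    intro n _
    rw [mul_comm]
    rfl
  have hsum : ∑ s ∈ S, ‖∑ n ∈ Icc 1 N, a n *
        Complex.exp ((x * s * Real.log n : ℝ) * Complex.I)‖ ^ 2 = ∑ s, ‖y s‖ ^ 2 := by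
    rw [← Finset.sum_coe_sort S]
    apply Finset.sum_congr rfl
    intro s _
    rw [hyv]
  have hsuma : ∑ n ∈ Icc 1 N, ‖a n‖ ^ 2 = ∑ n, ‖av n‖ ^ 2 := by
    rw [← Finset.sum_coe_sort (Icc 1 N)]
  rw [hsum, hsuma]
  -- duality
  set z : (Icc 1 N : Finset ℕ) → ℂ := Mᴴ *ᵥ y with hz
  have h1 : star y ⬝ᵥ ((M * Mᴴ) *ᵥ y) = star z ⬝ᵥ z := by
    rw [← Matrix.mulVec_mulVec]
    exact dual1 M y z
  have h2 : star y ⬝ᵥ y = star z ⬝ᵥ av := dual1 M y av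
  have hnorm : ∀ {ι : Type} [Fintype ι] (v : ι → ℂ), star v ⬝ᵥ v =
      ((∑ i, ‖v i‖ ^ 2 : ℝ) : ℂ) := by
    intro ι _ v
    rw [dotProduct]
    push_cast
    apply Finset.sum_congr rfl
    intro i _
    rw [Pi.star_apply, mul_comm]
    exact Complex.mul_conj' (v i)
  have h3 := hμ1 y
  rw [h1, hnorm, Complex.ofReal_re] at h3
  -- Cauchy-Schwarz
  have h4 : ∑ s, ‖y s‖ ^ 2 ≤ ∑ n, ‖z n‖ * ‖av n‖ := by
    have e1 : (∑ s, ‖y s‖ ^ 2 : ℝ) = ‖star z ⬝ᵥ av‖ := by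
      rw [← h2, hnorm, Complex.norm_real, Real.norm_eq_abs,
        abs_of_nonneg (Finset.sum_nonneg (fun _ _ => by positivity))]
    rw [e1, dotProduct]
    refine (norm_sum_le _ _).trans (Finset.sum_le_sum fun n _ => ?_)
    rw [norm_mul, Pi.star_apply, norm_star]
  have h5 := Finset.sum_mul_sq_le_sq_mul_sq univ (fun n => ‖z n‖) (fun n => ‖av n‖)
  set Y := ∑ s, ‖y s‖ ^ 2 with hY
  set Zs := ∑ n, ‖z n‖ ^ 2 with hZs
  set A := ∑ n, ‖av n‖ ^ 2 with hA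
  have hY0 : 0 ≤ Y := Finset.sum_nonneg (fun _ _ => by positivity)
  have hA0 : 0 ≤ A := Finset.sum_nonneg (fun _ _ => by positivity)
  have h6 : Y ^ 2 ≤ (μ * Y) * A := by
    calc Y ^ 2 ≤ (∑ n, ‖z n‖ * ‖av n‖) ^ 2 := pow_le_pow_left₀ hY0 h4 2
      _ ≤ Zs * A := h5
      _ ≤ (μ * Y) * A := by gcongr
  rcases hY0.eq_or_lt with h0 | h0
  · rw [← h0]; positivity
  · have : Y * Y ≤ Y * (μ * A) := by nlinarith
    exact le_of_mul_le_mul_left this h0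

theorem TR_cont (N : ℕ) (S : Finset ℝ) : Continuous (TR N S) := by
  unfold TR
  fun_prop

theorem int_cos (N : ℕ) (hN : 1 ≤ N) (c : ℝ) :
    ∫ x in (1:ℝ)..2, Real.cos (x * c) ≤
      (if |c| ≤ 2 * (N:ℝ) ^ 2 then 1 else 0) + 1 / (N:ℝ) ^ 2 := by
  have hN0 : (0:ℝ) < N := by exact_mod_cast (by omega : 0 < N)
  split_ifs with h
  · have h1 := intervalIntegral.norm_integral_le_of_norm_le_const (a := (1:ℝ)) (b := 2)
      (f := fun x => Real.cos (x * c)) (C := 1) (fun x _ => by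
        rw [Real.norm_eq_abs]; exact Real.abs_cos_le_one _)
    have h2 := (Real.le_norm_self _).trans h1
    have h3 : |(2:ℝ) - 1| = 1 := by norm_num
    rw [h3] at h2
    have : 0 ≤ 1 / (N:ℝ) ^ 2 := by positivity
    linarith
  · rw [not_le] at h
    have hc : 0 < |c| := lt_trans (by positivity) h
    have h1 := Pool.Agent.TH961.AP.int_cos_le 1 c (by norm_num)
    rw [mul_one, if_neg (abs_pos.1 hc)] at h1
    have h2 : 2 / |c| ≤ 1 / (N:ℝ) ^ 2 := by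
      rw [div_le_div_iff₀ hc (by positivity)]
      linarith
    linarith

noncomputable def WW (N : ℕ) (u v w : ℝ) : ℝ :=
  ∑ n₁ ∈ Icc 1 N, ∑ n₂ ∈ Icc 1 N, ∑ n₃ ∈ Icc 1 N,
    ∫ x in (1:ℝ)..2, Real.cos (x * (u * Real.log n₁ + v * Real.log n₂ + w * Real.log n₃))

theorem int_TR (N : ℕ) (S : Finset ℝ) : ∫ x in (1:ℝ)..2, TR N S x =
    ∑ s₁ ∈ S, ∑ s₃ ∈ S, ∑ s₂ ∈ S, WW N (s₁ - s₂) (s₂ - s₃) (s₃ - s₁) := by
  unfold TR WW
  rw [intervalIntegral.integral_finsetSum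
    (fun _ _ => Continuous.intervalIntegrable (by fun_prop) _ _)]
  apply Finset.sum_congr rfl; intro s₁ _
  rw [intervalIntegral.integral_finsetSum
    (fun _ _ => Continuous.intervalIntegrable (by fun_prop) _ _)]
  apply Finset.sum_congr rfl; intro s₃ _
  rw [intervalIntegral.integral_finsetSum
    (fun _ _ => Continuous.intervalIntegrable (by fun_prop) _ _)]
  apply Finset.sum_congr rfl; intro s₂ _
  rw [intervalIntegral.integral_finsetSum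
    (fun _ _ => Continuous.intervalIntegrable (by fun_prop) _ _)]
  apply Finset.sum_congr rfl; intro n₁ _
  rw [intervalIntegral.integral_finsetSum
    (fun _ _ => Continuous.intervalIntegrable (by fun_prop) _ _)]
  apply Finset.sum_congr rfl; intro n₂ _
  rw [intervalIntegral.integral_finsetSum
    (fun _ _ => Continuous.intervalIntegrable (by fun_prop) _ _)]

theorem WW_le_CN (N : ℕ) (hN : 1 ≤ N) (u v w : ℝ) : WW N u v w ≤ CN N u v w + N := by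
  have hN0 : (0:ℝ) < N := by exact_mod_cast (by omega : 0 < N)
  have h : WW N u v w ≤ ∑ n₁ ∈ Icc 1 N, ∑ n₂ ∈ Icc 1 N, ∑ n₃ ∈ Icc 1 N,
      ((if |u * Real.log n₁ + v * Real.log n₂ + w * Real.log n₃| ≤ 2 * (N:ℝ) ^ 2
        then (1:ℝ) else 0) + 1 / (N:ℝ) ^ 2) := by
    unfold WW
    apply sum_le_sum; intro n₁ _
    apply sum_le_sum; intro n₂ _
    apply sum_le_sum; intro n₃ _
    exact int_cos N hN _
  refine h.trans (le_of_eq ?_)
  simp_rw [sum_add_distrib]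
  unfold CN
  congr 1
  simp only [sum_const, nsmul_eq_mul, Nat.card_Icc, Nat.add_sub_cancel]
  field_simp

theorem WW_le_cube (N : ℕ) (u v w : ℝ) : WW N u v w ≤ (N:ℝ) ^ 3 := by
  have h : WW N u v w ≤ ∑ n₁ ∈ Icc 1 N, ∑ n₂ ∈ Icc 1 N, ∑ n₃ ∈ Icc 1 N, (1:ℝ) := by
    unfold WW
    apply sum_le_sum; intro n₁ _
    apply sum_le_sum; intro n₂ _
    apply sum_le_sum; intro n₃ _
    have h1 := intervalIntegral.norm_integral_le_of_norm_le_const (a := (1:ℝ)) (b := 2)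
      (f := fun x => Real.cos (x * (u * Real.log n₁ + v * Real.log n₂ + w * Real.log n₃)))
      (C := 1) (fun x _ => by rw [Real.norm_eq_abs]; exact Real.abs_cos_le_one _)
    have h2 := (Real.le_norm_self _).trans h1
    have h3 : |(2:ℝ) - 1| = 1 := by norm_num
    rw [h3] at h2
    linarith
  refine h.trans (le_of_eq ?_)
  simp only [sum_const, nsmul_eq_mul, Nat.card_Icc, Nat.add_sub_cancel]
  ring

theorem CN_two (N : ℕ) (hN : 1 ≤ N) (H β : ℝ) (hH : 128 * (N:ℝ) ^ 8 ≤ H) (hβ : H ≤ |β|) :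
    CN N 0 β (-β) ≤ (N:ℝ) ^ 2 := by
  have hNr : (1:ℝ) ≤ N := by exact_mod_cast hN
  have hN0 : (0:ℝ) < N := by linarith
  have hsep : ∀ n₂ ∈ Icc 1 N, ∀ n₃ ∈ Icc 1 N,
      |0 * Real.log (1:ℕ) + β * Real.log n₂ + -β * Real.log n₃| ≤ 2 * (N:ℝ) ^ 2 → n₂ = n₃ := by
    intro n₂ h2 n₃ h3 h
    rw [mem_Icc] at h2 h3
    by_contra hne
    have h4 : 1 / (N:ℝ) ≤ |Real.log n₂ - Real.log n₃| := by
      rcases lt_or_gt_of_ne hne with hlt | hlt
      · have := Pool.Agent.TH961.AP.log_sep h2.1 hlt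
        have h5 : 1 / (N:ℝ) ≤ 1 / n₃ := one_div_le_one_div_of_le
          (by exact_mod_cast (by omega : 0 < n₃)) (by exact_mod_cast h3.2)
        rw [abs_sub_comm]
        exact (h5.trans this).trans (le_abs_self _)
      · have := Pool.Agent.TH961.AP.log_sep h3.1 hlt
        have h5 : 1 / (N:ℝ) ≤ 1 / n₂ := one_div_le_one_div_of_le
          (by exact_mod_cast (by omega : 0 < n₂)) (by exact_mod_cast h2.2)
        exact (h5.trans this).trans (le_abs_self _)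
    have h6 : |0 * Real.log (1:ℕ) + β * Real.log n₂ + -β * Real.log n₃| =
        |β| * |Real.log n₂ - Real.log n₃| := by
      rw [← abs_mul]; congr 1; ring
    rw [h6] at h
    have h7 : 128 * (N:ℝ) ^ 8 * (1 / N) ≤ |β| * |Real.log n₂ - Real.log n₃| :=
      mul_le_mul (hH.trans hβ) h4 (by positivity) (abs_nonneg _)
    have h8 : 128 * (N:ℝ) ^ 8 * (1 / N) = 128 * (N:ℝ) ^ 7 := by field_simp
    have h9 : (N:ℝ) ^ 2 ≤ (N:ℝ) ^ 7 := pow_le_pow_right₀ hNr (by norm_num)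
    have h10 : 0 < (N:ℝ) ^ 2 := by positivity
    linarith
  have h : CN N 0 β (-β) ≤ ∑ n₁ ∈ Icc 1 N, ∑ n₂ ∈ Icc 1 N, ∑ n₃ ∈ Icc 1 N,
      (if n₂ = n₃ then (1:ℝ) else 0) := by
    unfold CN
    apply sum_le_sum; intro n₁ _
    apply sum_le_sum; intro n₂ h2
    apply sum_le_sum; intro n₃ h3
    by_cases hc : |0 * Real.log n₁ + β * Real.log n₂ + -β * Real.log n₃| ≤ 2 * (N:ℝ) ^ 2
    · have hc' : |0 * Real.log (1:ℕ) + β * Real.log n₂ + -β * Real.log n₃| ≤ 2 * (N:ℝ) ^ 2 := by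
        rw [zero_mul] at hc ⊢; exact hc
      rw [if_pos hc, if_pos (hsep n₂ h2 n₃ h3 hc')]
    · rw [if_neg hc]
      split_ifs <;> norm_num
  refine h.trans (le_of_eq ?_)
  simp only [sum_ite_eq]
  rw [sum_congr rfl (fun n₁ _ => sum_congr rfl (fun n₂ h2 => if_pos h2))]
  simp only [sum_const, nsmul_eq_mul, Nat.card_Icc, Nat.add_sub_cancel]
  ring

theorem WW_le (N : ℕ) (hN : 1 ≤ N) (S : Finset ℝ)
    (hS : ∀ s ∈ S, ∀ t ∈ S, s ≠ t → 128 * (N:ℝ) ^ 8 ≤ |s - t|) (s₁ s₂ s₃ : ℝ) (h1 : s₁ ∈ S)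
    (h2 : s₂ ∈ S) (h3 : s₃ ∈ S) :
    WW N (s₁ - s₂) (s₂ - s₃) (s₃ - s₁) ≤
      (if s₁ = s₃ then (if s₂ = s₃ then (N:ℝ) ^ 3 else 0) else 0) +
      (if s₁ = s₂ then 2 * (N:ℝ) ^ 2 else 0) + (if s₂ = s₃ then 2 * (N:ℝ) ^ 2 else 0) +
      (if s₁ = s₃ then 2 * (N:ℝ) ^ 2 else 0) + 5 * N * (1 + Real.log N) ^ 2 := by
  have hNr : (1:ℝ) ≤ N := by exact_mod_cast hN
  have hlN : 0 ≤ Real.log N := Real.log_nonneg hNr
  have hL : 1 ≤ (1 + Real.log N) ^ 2 := one_le_pow₀ (by linarith)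
  have hpos : 0 ≤ 5 * N * (1 + Real.log N) ^ 2 := by positivity
  have hN2 : 0 ≤ 2 * (N:ℝ) ^ 2 := by positivity
  have hN12 : (N:ℝ) ≤ (N:ℝ) ^ 2 := by nlinarith
  have hCN := WW_le_CN N hN (s₁ - s₂) (s₂ - s₃) (s₃ - s₁)
  by_cases a : s₁ = s₃
  · by_cases b : s₂ = s₃
    · have := WW_le_cube N (s₁ - s₂) (s₂ - s₃) (s₃ - s₁)
      rw [if_pos a, if_pos b, if_pos b, if_pos a]
      split_ifs <;> linarith
    · -- s₁ = s₃ ≠ s₂
      rw [if_pos a, if_neg b, if_neg b, if_pos a]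
      have hs := hS s₂ h2 s₃ h3 b
      have h4 := CN_two N hN _ (s₂ - s₃) le_rfl hs
      have h5 : CN N (s₁ - s₂) (s₂ - s₃) (s₃ - s₁) = CN N 0 (s₂ - s₃) (-(s₂ - s₃)) := by
        rw [a, sub_self, show s₃ - s₂ = -(s₂ - s₃) by ring]
        calc CN N (-(s₂ - s₃)) (s₂ - s₃) 0 = CN N (-(s₂ - s₃)) 0 (s₂ - s₃) := CN_23 N _ _ _
          _ = CN N 0 (-(s₂ - s₃)) (s₂ - s₃) := CN_12 N _ _ _
          _ = CN N 0 (s₂ - s₃) (-(s₂ - s₃)) := CN_23 N _ _ _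
      rw [← h5] at h4
      split_ifs <;> linarith
  · by_cases b : s₂ = s₃
    · rw [if_neg a, if_pos b, if_neg a]
      have hs := hS s₁ h1 s₃ h3 a
      have h4 := CN_two N hN _ (s₁ - s₃) le_rfl hs
      have h5 : CN N (s₁ - s₂) (s₂ - s₃) (s₃ - s₁) = CN N 0 (s₁ - s₃) (-(s₁ - s₃)) := by
        rw [b, sub_self, neg_sub]
        exact CN_12 N _ _ _
      rw [← h5] at h4
      split_ifs <;> linarith
    · by_cases c : s₁ = s₂
      · rw [if_neg a, if_pos c, if_neg b, if_neg a]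
        have hs := hS s₂ h2 s₃ h3 b
        have h4 := CN_two N hN _ (s₂ - s₃) le_rfl hs
        have h5 : CN N (s₁ - s₂) (s₂ - s₃) (s₃ - s₁) = CN N 0 (s₂ - s₃) (-(s₂ - s₃)) := by
          rw [c, sub_self, neg_sub]
        rw [← h5] at h4
        linarith
      · rw [if_neg a, if_neg c, if_neg b, if_neg a]
        have h4 := CN_le N hN (128 * (N:ℝ) ^ 8) (s₁ - s₂) (s₂ - s₃) (s₃ - s₁) le_rfl
          (hS s₁ h1 s₂ h2 c) (hS s₂ h2 s₃ h3 b) (hS s₃ h3 s₁ h1 (Ne.symm a)) (by ring)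
        nlinarith

theorem int_TR_le (N : ℕ) (hN : 1 ≤ N) (S : Finset ℝ)
    (hS : ∀ s ∈ S, ∀ t ∈ S, s ≠ t → 128 * (N:ℝ) ^ 8 ≤ |s - t|) :
    ∫ x in (1:ℝ)..2, TR N S x ≤ (N:ℝ) ^ 3 * S.card +
      (6 * (N:ℝ) ^ 2 * (S.card:ℝ) ^ 2 + 5 * N * (1 + Real.log N) ^ 2 * (S.card:ℝ) ^ 3) := by
  classical
  rw [int_TR]
  refine (sum_le_sum (fun s₁ h1 => sum_le_sum (fun s₃ h3 => sum_le_sum (fun s₂ h2 =>
    WW_le N hN S hS s₁ s₂ s₃ h1 h2 h3)))).trans (le_of_eq ?_)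
  simp_rw [sum_add_distrib]
  have e1 : ∑ s₁ ∈ S, ∑ s₃ ∈ S, ∑ s₂ ∈ S,
      (if s₁ = s₃ then (if s₂ = s₃ then (N:ℝ) ^ 3 else 0) else 0) = (N:ℝ) ^ 3 * S.card := by
    have : ∀ s₁ ∈ S, ∑ s₃ ∈ S, ∑ s₂ ∈ S,
        (if s₁ = s₃ then (if s₂ = s₃ then (N:ℝ) ^ 3 else 0) else 0) = (N:ℝ) ^ 3 := by
      intro s₁ h1
      rw [sum_eq_single s₁]
      · simp [h1]
      · intro b _ hb
        simp [Ne.symm hb]
      · intro h; exact absurd h1 h
    rw [sum_congr rfl this, sum_const, nsmul_eq_mul]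
    ring
  have e2 : ∑ s₁ ∈ S, ∑ s₃ ∈ S, ∑ s₂ ∈ S, (if s₁ = s₂ then 2 * (N:ℝ) ^ 2 else 0) =
      2 * (N:ℝ) ^ 2 * (S.card:ℝ) ^ 2 := by
    simp only [sum_ite_eq]
    rw [sum_congr rfl (fun s₁ h1 => sum_congr rfl (fun s₃ _ => if_pos h1))]
    simp only [sum_const, nsmul_eq_mul]
    ring
  have e3 : ∑ s₁ ∈ S, ∑ s₃ ∈ S, ∑ s₂ ∈ S, (if s₂ = s₃ then 2 * (N:ℝ) ^ 2 else 0) =
      2 * (N:ℝ) ^ 2 * (S.card:ℝ) ^ 2 := by
    simp only [sum_ite_eq']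
    rw [sum_congr rfl (fun s₁ _ => sum_congr rfl (fun s₃ h3 => if_pos h3))]
    simp only [sum_const, nsmul_eq_mul]
    ring
  have e4 : ∑ s₁ ∈ S, ∑ s₃ ∈ S, ∑ s₂ ∈ S, (if s₁ = s₃ then 2 * (N:ℝ) ^ 2 else 0) =
      2 * (N:ℝ) ^ 2 * (S.card:ℝ) ^ 2 := by
    simp only [sum_const, nsmul_eq_mul, mul_ite, mul_zero, sum_ite_eq]
    rw [sum_congr rfl (fun s₁ h1 => if_pos h1), sum_const, nsmul_eq_mul]
    ring
  rw [e1, e2, e3, e4]
  simp only [sum_const, nsmul_eq_mul]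
  ring

end Pool.Agent.TH961.SD
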