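import Pool.Agent.TH961.AP.Lq
import Pool.Agent.TH961.SD.Tr

set_option autoImplicit false

/-!
All subsets of a generic large dilate.
-/

namespace Pool.Agent.TH961.SD

open Finset Matrix MeasureTheory
open scoped ComplexOrder

open Pool.Agent.TH961.AP (DP cpow_eq)

/-- the duality step -/
theorem dual_bound (N : ℕ) (S : Finset ℝ) (x μ : ℝ) (hμ0 : 0 ≤ μ)
    (hμ : ∀ y : S → ℂ, (star y ⬝ᵥ ((MM N S x * (MM N S x)ᴴ) *ᵥ y)).re ≤ μ * ∑ i, ‖y i‖ ^ 2)
    (a : ℕ → ℂ) : ∑ s ∈ S, ‖∑ n ∈ Icc 1 N, a n *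
        Complex.exp ((x * s * Real.log n : ℝ) * Complex.I)‖ ^ 2 ≤
          μ * ∑ n ∈ Icc 1 N, ‖a n‖ ^ 2 := by
  classical
  set M := MM N S x with hM
  set av : (Icc 1 N : Finset ℕ) → ℂ := fun n => a n with hav
  set y : S → ℂ := M *ᵥ av with hy
  have hyv : ∀ s : S, y s = ∑ n ∈ Icc 1 N, a n *
        Complex.exp ((x * s * Real.log n : ℝ) * Complex.I) := by
    intro s
    rw [hy, Matrix.mulVec, dotProduct, ← Finset.sum_coe_sort (Icc 1 N)]
    apply Finset.sum_congr rfl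
    intro n _
    rw [mul_comm]
    rfl
  have hsum : ∑ s ∈ S, ‖∑ n ∈ Icc 1 N, a n *
        Complex.exp ((x * s * Real.log n : ℝ) * Complex.I)‖ ^ 2 = ∑ s, ‖y s‖ ^ 2 := by
    rw [← Finset.sum_coe_sort S]
    apply Finset.sum_congr rfl
    intro s _
    rw [hyv]
  have hsuma : ∑ n ∈ Icc 1 N, ‖a n‖ ^ 2 = ∑ n, ‖av n‖ ^ 2 := by
    rw [← Finset.sum_coe_sort (Icc 1 N)]
  rw [hsum, hsuma]
  set z : (Icc 1 N : Finset ℕ) → ℂ := Mᴴ *ᵥ y with hz
  have h1 : star y ⬝ᵥ ((M * Mᴴ) *ᵥ y) = star z ⬝ᵥ z := by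
    rw [← Matrix.mulVec_mulVec]
    exact dual1 M y z
  have h2 : star y ⬝ᵥ y = star z ⬝ᵥ av := dual1 M y av
  have hnorm : ∀ {ι : Type} [Fintype ι] (v : ι → ℂ), star v ⬝ᵥ v =
      ((∑ i, ‖v i‖ ^ 2 : ℝ) : ℂ) := by
    intro ι _ v
    rw [dotProduct]
    push_cast
    apply Finset.sum_congr rfl
    intro i _
    rw [Pi.star_apply, mul_comm]
    exact Complex.mul_conj' (v i)
  have h3 := hμ y
  rw [h1, hnorm, Complex.ofReal_re] at h3
  have h4 : ∑ s, ‖y s‖ ^ 2 ≤ ∑ n, ‖z n‖ * ‖av n‖ := by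
    have e1 : (∑ s, ‖y s‖ ^ 2 : ℝ) = ‖star z ⬝ᵥ av‖ := by
      rw [← h2, hnorm, Complex.norm_real, Real.norm_eq_abs,
        abs_of_nonneg (Finset.sum_nonneg (fun _ _ => by positivity))]
    rw [e1, dotProduct]
    refine (norm_sum_le _ _).trans (Finset.sum_le_sum fun n _ => ?_)
    rw [norm_mul, Pi.star_apply, norm_star]
  have h5 := Finset.sum_mul_sq_le_sq_mul_sq univ (fun n => ‖z n‖) (fun n => ‖av n‖)
  set Y := ∑ s, ‖y s‖ ^ 2 with hY
  set Zs := ∑ n, ‖z n‖ ^ 2 with hZs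
  set A := ∑ n, ‖av n‖ ^ 2 with hA
  have hY0 : 0 ≤ Y := Finset.sum_nonneg (fun _ _ => by positivity)
  have hA0 : 0 ≤ A := Finset.sum_nonneg (fun _ _ => by positivity)
  have h6 : Y ^ 2 ≤ (μ * Y) * A := by
    calc Y ^ 2 ≤ (∑ n, ‖z n‖ * ‖av n‖) ^ 2 := pow_le_pow_left₀ hY0 h4 2
      _ ≤ Zs * A := h5
      _ ≤ (μ * Y) * A := by gcongr
  rcases hY0.eq_or_lt with h0 | h0
  · rw [← h0]; positivity
  · have : Y * Y ≤ Y * (μ * A) := by nlinarith
    exact le_of_mul_le_mul_left this h0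

theorem gersh (N : ℕ) (W : Finset ℝ) (x H : ℝ) (hH : 0 ≤ H)
    (h : ∀ s ∈ W, ∀ t ∈ W, s ≠ t → ‖bb N x (s - t)‖ ≤ H) (y : W → ℂ) :
    (star y ⬝ᵥ ((MM N W x * (MM N W x)ᴴ) *ᵥ y)).re ≤ (N + W.card * H) * ∑ i, ‖y i‖ ^ 2 := by
  classical
  set B := MM N W x * (MM N W x)ᴴ with hB
  have hent : ∀ s t : W, ‖B s t‖ ≤ H + (if s = t then (N:ℝ) else 0) := by
    intro s t
    rw [hB, MM_mul]
    by_cases hst : s = t
    · rw [if_pos hst, hst, sub_self]
      have : ‖bb N x 0‖ ≤ N := by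
        unfold bb
        simp
      linarith
    · rw [if_neg hst, add_zero]
      exact h s s.2 t t.2 (fun hh => hst (Subtype.ext hh))
  have h1 : (star y ⬝ᵥ (B *ᵥ y)).re ≤ ∑ s, ∑ t, ‖y s‖ * ((H + (if s = t then (N:ℝ) else 0)) *
      ‖y t‖) := by
    refine (Complex.re_le_norm _).trans ?_
    rw [dotProduct]
    refine (norm_sum_le _ _).trans (Finset.sum_le_sum fun s _ => ?_)
    rw [norm_mul, Pi.star_apply, norm_star, ← Finset.mul_sum]
    apply mul_le_mul_of_nonneg_left _ (norm_nonneg _)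
    rw [Matrix.mulVec, dotProduct]
    refine (norm_sum_le _ _).trans (Finset.sum_le_sum fun t _ => ?_)
    rw [norm_mul]
    exact mul_le_mul_of_nonneg_right (hent s t) (norm_nonneg _)
  refine h1.trans ?_
  have h2 : ∑ s, ∑ t, ‖y s‖ * ((H + (if s = t then (N:ℝ) else 0)) * ‖y t‖) =
      H * (∑ s, ‖y s‖) ^ 2 + N * ∑ s, ‖y s‖ ^ 2 := by
    have e1 : ∀ s t : W, ‖y s‖ * ((H + (if s = t then (N:ℝ) else 0)) * ‖y t‖) =
        H * (‖y s‖ * ‖y t‖) + (if s = t then N * (‖y s‖ * ‖y t‖) else 0) := by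
      intro s t
      split_ifs <;> ring
    simp_rw [e1, Finset.sum_add_distrib]
    congr 1
    · rw [sq, Finset.sum_mul_sum, Finset.mul_sum]
      apply Finset.sum_congr rfl
      intro s _
      rw [Finset.mul_sum]
    · simp only [Finset.sum_ite_eq, Finset.mem_univ, if_true]
      rw [Finset.mul_sum]
      apply Finset.sum_congr rfl
      intro s _
      ring
  rw [h2]
  have h3 : (∑ s, ‖y s‖) ^ 2 ≤ W.card * ∑ s, ‖y s‖ ^ 2 := by
    have := sq_sum_le_card_mul_sum_sq (s := (univ : Finset W)) (f := fun s => ‖y s‖)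
    rw [Finset.card_univ, Fintype.card_coe] at this
    exact this
  nlinarith

/-- mean value over the dilation of one Dirichlet polynomial -/
theorem mean_one (M : ℕ) (c : ℕ → ℂ) (B : ℝ) (hB : 0 ≤ B) (hc : ∀ n, ‖c n‖ ≤ B) (y Λ : ℝ)
    (hy : 1 ≤ |y|) (hΛ : 0 ≤ Λ) :
    ∫ x in Λ..(2*Λ), ‖DP M c (x * y)‖ ^ 2 ≤
      B ^ 2 * (Λ * M + 4 * (M:ℝ) ^ 2 * (1 + Real.log M)) := by
  classical
  have hexp : ∀ x : ℝ, ((‖DP M c (x * y)‖ ^ 2 : ℝ) : ℂ) = ∑ m ∈ Icc 1 M, ∑ n ∈ Icc 1 M,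
      (c m * (starRingEnd ℂ) (c n)) *
        Complex.exp ((((Real.log n - Real.log m) * y : ℝ) : ℂ) * Complex.I * (x : ℂ)) := by
    intro x
    have h1 : ((‖DP M c (x * y)‖ ^ 2 : ℝ) : ℂ) =
        DP M c (x * y) * (starRingEnd ℂ) (DP M c (x * y)) := by
      rw [Complex.mul_conj, Complex.normSq_eq_norm_sq]
    rw [h1]
    unfold DP
    rw [map_sum, Finset.sum_mul_sum]
    apply Finset.sum_congr rfl
    intro m hm
    apply Finset.sum_congr rfl
    intro n hn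
    rw [cpow_eq m (mem_Icc.1 hm).1, cpow_eq n (mem_Icc.1 hn).1, map_mul, ← Complex.exp_conj,
      map_mul, Complex.conj_ofReal, Complex.conj_I]
    have h2 : c m * Complex.exp (((-(x * y * Real.log m) : ℝ) : ℂ) * Complex.I) *
        ((starRingEnd ℂ) (c n) * Complex.exp (((-(x * y * Real.log n) : ℝ) : ℂ) * -Complex.I)) =
        (c m * (starRingEnd ℂ) (c n)) *
        (Complex.exp (((-(x * y * Real.log m) : ℝ) : ℂ) * Complex.I) *
          Complex.exp (((-(x * y * Real.log n) : ℝ) : ℂ) * -Complex.I)) := by ring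
    rw [h2, ← Complex.exp_add]
    congr 2
    push_cast
    ring
  have hint : ∀ m ∈ Icc 1 M, ∀ n ∈ Icc 1 M,
      ‖∫ x in Λ..(2*Λ), (c m * (starRingEnd ℂ) (c n)) *
        Complex.exp ((((Real.log n - Real.log m) * y : ℝ) : ℂ) * Complex.I * (x : ℂ))‖ ≤
      B ^ 2 * ((if m = n then Λ else 0) + 2 * (1 / |Real.log n - Real.log m|)) := by
    intro m hm n hn
    rw [intervalIntegral.integral_const_mul, norm_mul, norm_mul]
    have h0 : ‖(starRingEnd ℂ) (c n)‖ ≤ B := by rw [RCLike.norm_conj]; exact hc n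
    have h1 : ‖c m‖ * ‖(starRingEnd ℂ) (c n)‖ ≤ B ^ 2 := by
      rw [sq]
      exact mul_le_mul (hc m) h0 (norm_nonneg _) hB
    apply mul_le_mul h1 _ (norm_nonneg _) (by positivity)
    by_cases hmn : m = n
    · rw [if_pos hmn, hmn]
      simp only [sub_self, zero_mul, Complex.ofReal_zero, Complex.exp_zero]
      rw [intervalIntegral.integral_const]
      simp only [abs_zero, div_zero, mul_zero, add_zero]
      rw [norm_smul, norm_one, mul_one, Real.norm_eq_abs, show 2 * Λ - Λ = Λ by ring,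
        abs_of_nonneg hΛ]
    · rw [if_neg hmn, zero_add]
      have hl : Real.log n - Real.log m ≠ 0 := fun h =>
        hmn (Pool.Agent.TH961.AP.log_ne hm hn h)
      have hy0 : y ≠ 0 := by
        intro h
        rw [h, abs_zero] at hy
        linarith
      set r : ℝ := (Real.log n - Real.log m) * y with hr
      have hr0 : r ≠ 0 := mul_ne_zero hl hy0
      have hc0 : (r : ℂ) * Complex.I ≠ 0 :=
        mul_ne_zero (by exact_mod_cast hr0) Complex.I_ne_zero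
      rw [integral_exp_mul_complex hc0, norm_div, norm_mul, Complex.norm_I, mul_one,
        Complex.norm_real, Real.norm_eq_abs]
      have h3 : ‖Complex.exp ((r : ℂ) * Complex.I * ((2 * Λ : ℝ) : ℂ)) -
          Complex.exp ((r : ℂ) * Complex.I * (Λ : ℂ))‖ ≤ 2 := by
        have e1 : ‖Complex.exp ((r : ℂ) * Complex.I * ((2 * Λ : ℝ) : ℂ))‖ = 1 := by
          rw [show (r : ℂ) * Complex.I * ((2 * Λ : ℝ) : ℂ) =
            ((r * (2 * Λ) : ℝ) : ℂ) * Complex.I by push_cast; ring,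
            Complex.norm_exp_ofReal_mul_I]
        have e2 : ‖Complex.exp ((r : ℂ) * Complex.I * (Λ : ℂ))‖ = 1 := by
          rw [show (r : ℂ) * Complex.I * (Λ : ℂ) = ((r * Λ : ℝ) : ℂ) * Complex.I by
            push_cast; ring, Complex.norm_exp_ofReal_mul_I]
        calc _ ≤ ‖Complex.exp ((r : ℂ) * Complex.I * ((2 * Λ : ℝ) : ℂ))‖ +
              ‖Complex.exp ((r : ℂ) * Complex.I * (Λ : ℂ))‖ := norm_sub_le _ _
          _ = 2 := by rw [e1, e2]; norm_num
      have h4 : |Real.log n - Real.log m| ≤ |r| := by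
        rw [hr, abs_mul]
        have := abs_nonneg (Real.log n - Real.log m)
        nlinarith
      have h5 : 0 < |Real.log n - Real.log m| := abs_pos.2 hl
      calc _ ≤ 2 / |r| := by gcongr
        _ ≤ 2 / |Real.log n - Real.log m| := by gcongr
        _ = 2 * (1 / |Real.log n - Real.log m|) := by ring
  have hI : ((∫ x in Λ..(2*Λ), ‖DP M c (x * y)‖ ^ 2 : ℝ) : ℂ) =
      ∑ m ∈ Icc 1 M, ∑ n ∈ Icc 1 M, ∫ x in Λ..(2*Λ), (c m * (starRingEnd ℂ) (c n)) *
        Complex.exp ((((Real.log n - Real.log m) * y : ℝ) : ℂ) * Complex.I * (x : ℂ)) := by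
    rw [← intervalIntegral.integral_ofReal]
    simp_rw [hexp]
    rw [intervalIntegral.integral_finsetSum
      (fun _ _ => Continuous.intervalIntegrable (by fun_prop) _ _)]
    apply Finset.sum_congr rfl
    intro m _
    rw [intervalIntegral.integral_finsetSum
      (fun _ _ => Continuous.intervalIntegrable (by fun_prop) _ _)]
  have h0 : 0 ≤ ∫ x in Λ..(2*Λ), ‖DP M c (x * y)‖ ^ 2 :=
    intervalIntegral.integral_nonneg (by linarith) (fun x _ => by positivity)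
  have h1 : ∫ x in Λ..(2*Λ), ‖DP M c (x * y)‖ ^ 2 =
      ‖((∫ x in Λ..(2*Λ), ‖DP M c (x * y)‖ ^ 2 : ℝ) : ℂ)‖ := by
    rw [Complex.norm_real, Real.norm_eq_abs, abs_of_nonneg h0]
  rw [h1, hI]
  refine (norm_sum_le _ _).trans ?_
  refine (Finset.sum_le_sum (fun m hm => (norm_sum_le _ _).trans
    (Finset.sum_le_sum (fun n hn => hint m hm n hn)))).trans ?_
  simp_rw [← Finset.mul_sum, Finset.sum_add_distrib, ← Finset.mul_sum]
  apply mul_le_mul_of_nonneg_left _ (by positivity)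
  have h2 : ∑ m ∈ Icc 1 M, ∑ n ∈ Icc 1 M, (if m = n then Λ else 0) = Λ * M := by
    simp only [Finset.sum_ite_eq]
    rw [Finset.sum_congr rfl (fun m hm => if_pos hm), Finset.sum_const, nsmul_eq_mul]
    simp only [Nat.card_Icc, Nat.add_sub_cancel]
    ring
  have h3 := Pool.Agent.TH961.AP.sum_logs M
  rw [h2]
  linarith

end Pool.Agent.TH961.SD
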