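import Pool.Agent.TH961.SD.Uni

set_option autoImplicit false

/-!
All subsets of a generic large dilate: the exceptional set and the final bounds.
-/

namespace Pool.Agent.TH961.SD

open Finset Matrix MeasureTheory
open scoped ComplexOrder

open Pool.Agent.TH961.AP (DP cpow_eq pow_DP)

theorem markov (f : ℝ → ℝ) (hf : Continuous f) (hf0 : ∀ x, 0 ≤ f x) (Λ I X : ℝ) (hΛ : 0 ≤ Λ)
    (hX : 0 < X) (hI : ∫ x in Λ..(2*Λ), f x ≤ I) :
    volume ({x | X ≤ f x} ∩ Set.Icc Λ (2*Λ)) ≤ ENNReal.ofReal (I / X) := by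
  have hle : Λ ≤ 2 * Λ := by linarith
  have hInt : Integrable f (volume.restrict (Set.Icc Λ (2*Λ))) :=
    hf.continuousOn.integrableOn_compact isCompact_Icc
  have h1 := mul_meas_ge_le_integral_of_nonneg (μ := volume.restrict (Set.Icc Λ (2*Λ)))
    (f := f) (Filter.Eventually.of_forall hf0) hInt X
  have h2 : ∫ x in Set.Icc Λ (2*Λ), f x = ∫ x in Λ..(2*Λ), f x := by
    rw [intervalIntegral.integral_of_le hle, integral_Icc_eq_integral_Ioc]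
  rw [h2] at h1
  have hmeas : MeasurableSet {x | X ≤ f x} := measurableSet_le measurable_const hf.measurable
  rw [← Measure.restrict_apply hmeas]
  have hfin : (volume.restrict (Set.Icc Λ (2*Λ))) {x | X ≤ f x} ≠ ⊤ :=
    measure_ne_top (volume.restrict (Set.Icc Λ (2*Λ))) _
  rw [← ENNReal.ofReal_toReal hfin]
  apply ENNReal.ofReal_le_ofReal
  rw [le_div_iff₀ hX, mul_comm]
  exact h1.trans hI

theorem DP_cont (N : ℕ) (c : ℕ → ℂ) (y : ℝ) : Continuous (fun x : ℝ => ‖DP N c (x * y)‖ ^ 2) := by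
  have h : (fun x : ℝ => ‖DP N c (x * y)‖ ^ 2) = fun x : ℝ => ‖∑ n ∈ Icc 1 N, c n *
      Complex.exp ((-(x * y * Real.log n) : ℝ) * Complex.I)‖ ^ 2 := by
    funext x
    unfold DP
    congr 2
    apply Finset.sum_congr rfl
    intro n hn
    rw [cpow_eq n (mem_Icc.1 hn).1]
  rw [h]
  fun_prop

theorem bb_DP (N : ℕ) (x u : ℝ) : bb N x u = DP N (fun _ => 1) (x * (-u)) := by
  unfold bb DP
  apply Finset.sum_congr rfl
  intro n hn
  rw [cpow_eq n (mem_Icc.1 hn).1, one_mul]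
  congr 2
  push_cast
  ring

theorem uni (m : ℕ) (hm : 1 ≤ m) (ε : ℝ) (hε : 0 < ε) : ∃ C : ℝ, 1 ≤ C ∧
    ∀ N : ℕ, 1 ≤ N → ∀ A : Finset ℝ, A.Nonempty →
      (∀ s ∈ A, ∀ t ∈ A, s ≠ t → 1 ≤ |s - t|) → ∀ Λ η : ℝ,
      (N:ℝ) ^ m * (1 + m * Real.log N) ≤ Λ → 0 < η →
    ∃ E : Set ℝ, MeasurableSet E ∧ volume E ≤ ENNReal.ofReal (η * Λ) ∧
      ∀ x ∈ Set.Icc Λ (2 * Λ), x ∉ E → ∀ s ∈ A, ∀ t ∈ A, s ≠ t →
        ‖bb N x (s - t)‖ ≤ (N:ℝ) ^ (1 / 2 : ℝ) *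
          (C * (N:ℝ) ^ ε * (A.card:ℝ) ^ 2 / η) ^ (1 / (2 * m) : ℝ) := by
  classical
  obtain ⟨C0, hC1, hC⟩ := pow_DP m (ε / 2) (by positivity)
  refine ⟨5 * C0 ^ 2, by nlinarith [one_le_pow₀ hC1 (n := 2)], ?_⟩
  intro N hN A hA hsep Λ η hΛ hη
  have hNr : (1:ℝ) ≤ N := by exact_mod_cast hN
  have hN0 : (0:ℝ) < N := by linarith
  have hlN : 0 ≤ Real.log N := Real.log_nonneg hNr
  have hm0 : (0:ℝ) < m := by exact_mod_cast hm
  have hNm : (1:ℝ) ≤ (N:ℝ) ^ m := one_le_pow₀ hNr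
  have hΛ0 : 0 < Λ := by
    have : 0 ≤ (m:ℝ) * Real.log N := by positivity
    have h2 : 1 ≤ (N:ℝ) ^ m * (1 + m * Real.log N) := by nlinarith
    linarith
  have hA0 : (0:ℝ) < A.card := by exact_mod_cast hA.card_pos
  obtain ⟨c, hc1, hc2⟩ := hC N hN (fun _ => 1) (fun _ => by simp)
  set B : ℝ := C0 * (N:ℝ) ^ (ε / 2) with hB
  have hB0 : 0 < B := by positivity
  set X : ℝ := 5 * B ^ 2 * (N:ℝ) ^ m * (A.card:ℝ) ^ 2 / η with hX
  have hX0 : 0 < X := by positivity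
  let Bad : ℝ × ℝ → Set ℝ := fun p =>
    {x | X ≤ ‖DP (N ^ m) c (x * (p.2 - p.1))‖ ^ 2} ∩ Set.Icc Λ (2*Λ)
  let P : Finset (ℝ × ℝ) := (A ×ˢ A).filter (fun p => p.1 ≠ p.2)
  have hBadm : ∀ p, MeasurableSet (Bad p) := fun p =>
    (measurableSet_le measurable_const (DP_cont (N ^ m) c (p.2 - p.1)).measurable).inter
      measurableSet_Icc
  refine ⟨⋃ p ∈ P, Bad p, Finset.measurableSet_biUnion _ (fun p _ => hBadm p), ?_, ?_⟩
  · have h1 : ∀ p ∈ P, volume (Bad p) ≤ ENNReal.ofReal (η * Λ / (A.card:ℝ) ^ 2) := by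
      intro p hp
      rw [mem_filter, mem_product] at hp
      have hy : 1 ≤ |p.2 - p.1| := hsep _ hp.1.2 _ hp.1.1 (Ne.symm hp.2)
      have hmean := mean_one (N ^ m) c B hB0.le hc2 (p.2 - p.1) Λ hy hΛ0.le
      have h2 : B ^ 2 * (Λ * ((N ^ m : ℕ) : ℝ) + 4 * (((N ^ m : ℕ)) : ℝ) ^ 2 *
          (1 + Real.log ((N ^ m : ℕ) : ℝ))) ≤ 5 * B ^ 2 * (N:ℝ) ^ m * Λ := by
        rw [Nat.cast_pow, Real.log_pow]
        have h3 : 4 * ((N:ℝ) ^ m) ^ 2 * (1 + m * Real.log N) ≤ 4 * (N:ℝ) ^ m * Λ := by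
          calc 4 * ((N:ℝ) ^ m) ^ 2 * (1 + m * Real.log N) =
              4 * (N:ℝ) ^ m * ((N:ℝ) ^ m * (1 + m * Real.log N)) := by ring
            _ ≤ 4 * (N:ℝ) ^ m * Λ := by gcongr
        calc B ^ 2 * (Λ * (N:ℝ) ^ m + 4 * ((N:ℝ) ^ m) ^ 2 * (1 + m * Real.log N))
            ≤ B ^ 2 * (Λ * (N:ℝ) ^ m + 4 * (N:ℝ) ^ m * Λ) := by gcongr
          _ = _ := by ring
      have h4 := markov _ (DP_cont (N ^ m) c (p.2 - p.1)) (fun x => by positivity) Λ _ X hΛ0.le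
        hX0 (hmean.trans h2)
      refine h4.trans ?_
      apply ENNReal.ofReal_le_ofReal
      apply le_of_eq
      rw [hX]
      field_simp
    refine (measure_biUnion_finset_le _ _).trans ?_
    refine (Finset.sum_le_sum h1).trans ?_
    rw [Finset.sum_const, nsmul_eq_mul]
    have hcard : (P.card : ℝ) ≤ (A.card:ℝ) ^ 2 := by
      have : P.card ≤ (A ×ˢ A).card := card_filter_le _ _
      rw [card_product] at this
      have h5 : (P.card:ℝ) ≤ (A.card:ℝ) * A.card := by exact_mod_cast this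
      linarith [sq (A.card:ℝ)]
    have h6 : ((P.card : ℕ) : ENNReal) = ENNReal.ofReal (P.card : ℝ) := by
      rw [ENNReal.ofReal_natCast]
    rw [h6, ← ENNReal.ofReal_mul (Nat.cast_nonneg _)]
    apply ENNReal.ofReal_le_ofReal
    calc (P.card:ℝ) * (η * Λ / (A.card:ℝ) ^ 2) ≤ (A.card:ℝ) ^ 2 * (η * Λ / (A.card:ℝ) ^ 2) := by
          gcongr
      _ = η * Λ := by field_simp
  · intro x hx hxE s hs t ht hst
    have h1 : x ∉ Bad (s, t) := by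
      intro h
      apply hxE
      rw [Set.mem_iUnion₂]
      exact ⟨(s, t), by rw [mem_filter, mem_product]; exact ⟨⟨hs, ht⟩, hst⟩, h⟩
    have h2 : ‖DP (N ^ m) c (x * (t - s))‖ ^ 2 < X := by
      by_contra h
      exact h1 ⟨not_lt.1 h, hx⟩
    rw [← hc1, norm_pow, ← pow_mul] at h2
    have h3 : bb N x (s - t) = DP N (fun _ => 1) (x * (t - s)) := by
      rw [bb_DP]
      congr 1
      ring
    rw [h3]
    set Z := ‖DP N (fun _ => 1) (x * (t - s))‖ with hZ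
    have hZ0 : 0 ≤ Z := norm_nonneg _
    have h4 : Z = (Z ^ (m * 2)) ^ (1 / (2 * m) : ℝ) := by
      rw [← Real.rpow_natCast Z (m * 2), ← Real.rpow_mul hZ0]
      have : ((m * 2 : ℕ) : ℝ) * (1 / (2 * m) : ℝ) = 1 := by
        push_cast
        rw [mul_one_div, div_eq_one_iff_eq (by positivity)]
        ring
      rw [this, Real.rpow_one]
    have h5 : (Z ^ (m * 2)) ^ (1 / (2 * m) : ℝ) ≤ X ^ (1 / (2 * m) : ℝ) :=
      Real.rpow_le_rpow (pow_nonneg hZ0 _) h2.le (by positivity)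
    have h6 : X ^ (1 / (2 * m) : ℝ) = (N:ℝ) ^ (1 / 2 : ℝ) *
          (5 * C0 ^ 2 * (N:ℝ) ^ ε * (A.card:ℝ) ^ 2 / η) ^ (1 / (2 * m) : ℝ) := by
      have e1 : X = (N:ℝ) ^ m * (5 * C0 ^ 2 * (N:ℝ) ^ ε * (A.card:ℝ) ^ 2 / η) := by
        rw [hX, hB, mul_pow]
        have : (N:ℝ) ^ ε = ((N:ℝ) ^ (ε / 2)) ^ 2 := by
          rw [← Real.rpow_natCast, ← Real.rpow_mul hN0.le]
          congr 1
          push_cast; ring
        rw [this]
        ring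
      have e2 : 0 ≤ 5 * C0 ^ 2 * (N:ℝ) ^ ε * (A.card:ℝ) ^ 2 / η := by
        apply div_nonneg _ hη.le
        apply mul_nonneg (mul_nonneg (mul_nonneg (by norm_num) (sq_nonneg C0))
          (Real.rpow_nonneg hN0.le ε)) (sq_nonneg _)
      have e3 : 0 ≤ (N:ℝ) ^ m := pow_nonneg hN0.le m
      rw [e1, Real.mul_rpow e3 e2]
      congr 1
      rw [← Real.rpow_natCast (N:ℝ) m, ← Real.rpow_mul hN0.le]
      congr 1
      rw [mul_one_div, div_eq_div_iff (by positivity) (by norm_num)]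
      ring
    calc Z = _ := h4
      _ ≤ _ := h5
      _ = _ := h6

/-- consequences for all subsets of `A` -/
theorem all_subsets (N : ℕ) (hN : 1 ≤ N) (A : Finset ℝ) (x H : ℝ) (hH : 0 ≤ H)
    (h : ∀ s ∈ A, ∀ t ∈ A, s ≠ t → ‖bb N x (s - t)‖ ≤ H) (W : Finset ℝ) (hW : W ⊆ A) :
    (∀ a : ℕ → ℂ, ∑ s ∈ W, ‖∑ n ∈ Icc 1 N, a n *
        Complex.exp ((x * s * Real.log n : ℝ) * Complex.I)‖ ^ 2 ≤
          (N + W.card * H) * ∑ n ∈ Icc 1 N, ‖a n‖ ^ 2) ∧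
    (∀ (a : ℕ → ℂ) (V : ℝ), (∀ n, ‖a n‖ ≤ 1) → 0 < V → 2 * N * H ≤ V ^ 2 →
      (∀ s ∈ W, V ≤ ‖∑ n ∈ Icc 1 N, a n *
        Complex.exp ((x * s * Real.log n : ℝ) * Complex.I)‖) →
      (W.card : ℝ) ≤ 2 * ((N:ℝ) ^ 2 / V ^ 2)) := by
  have h1 : ∀ a : ℕ → ℂ, ∑ s ∈ W, ‖∑ n ∈ Icc 1 N, a n *
        Complex.exp ((x * s * Real.log n : ℝ) * Complex.I)‖ ^ 2 ≤
          (N + W.card * H) * ∑ n ∈ Icc 1 N, ‖a n‖ ^ 2 := fun a =>
    dual_bound N W x (N + W.card * H) (by positivity)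
      (gersh N W x H hH (fun s hs t ht hst => h s (hW hs) t (hW ht) hst)) a
  refine ⟨h1, ?_⟩
  intro a V ha hV hVH hlarge
  have hV2 : 0 < V ^ 2 := by positivity
  have e1 : (W.card:ℝ) * V ^ 2 ≤ ∑ s ∈ W, ‖∑ n ∈ Icc 1 N, a n *
      Complex.exp ((x * s * Real.log n : ℝ) * Complex.I)‖ ^ 2 := by
    calc (W.card:ℝ) * V ^ 2 = ∑ s ∈ W, V ^ 2 := by rw [Finset.sum_const, nsmul_eq_mul]
      _ ≤ _ := Finset.sum_le_sum (fun s hs => by
        have := hlarge s hs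
        gcongr)
  have e2 : ∑ n ∈ Icc 1 N, ‖a n‖ ^ 2 ≤ N := by
    calc ∑ n ∈ Icc 1 N, ‖a n‖ ^ 2 ≤ ∑ n ∈ Icc 1 N, (1:ℝ) := Finset.sum_le_sum (fun n _ => by
          have := ha n
          have := norm_nonneg (a n)
          nlinarith)
      _ = N := by simp
  have e3 : (W.card:ℝ) * V ^ 2 ≤ (N + W.card * H) * N := by
    calc _ ≤ _ := e1
      _ ≤ _ := h1 a
      _ ≤ _ := by gcongr
  have e4 : (W.card:ℝ) * (2 * N * H) ≤ W.card * V ^ 2 := by gcongr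
  rw [← mul_div_assoc, le_div_iff₀ hV2]
  nlinarith

end Pool.Agent.TH961.SD
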